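import Mathlib

set_option autoImplicit false

open Finset
open scoped Classical

namespace Run7.h93

variable {α : Type*} [Fintype α] [PartialOrder α]

/-- The pair `(F, φ)` is admissible above height `m`: `F` is an up-set, `φ` is order preserving
off `F`, and on `F` it is strictly order reversing with values larger than `m`. -/
structure Valid (m : ℕ) (F : Finset α) (φ : α → ℕ) : Prop where
  up : ∀ x y, x < y → x ∈ F → y ∈ F
  mono : ∀ x y, x < y → x ∉ F → y ∉ F → φ x ≤ φ y
  anti : ∀ x y, x < y → x ∈ F → φ y < φ x
  pos : ∀ x ∈ F, m < φ x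

omit [Fintype α] in
theorem valid_insert {m : ℕ} {F : Finset α} {φ : α → ℕ} {x : α} (hx : m < φ x)
    (hmax : ∀ y, φ y ≤ φ x) (htop : ∀ y, x < y → φ y ≠ φ x) (hF : Valid m F φ) (hxF : x ∉ F) :
    Valid m (insert x F) φ := by
  have hup : ∀ y, x < y → y ∈ F := by
    intro y hy
    by_contra hyF
    have h1 := hF.mono x y hy hxF hyF
    exact htop y hy (le_antisymm (hmax y) h1)
  refine ⟨?_, ?_, ?_, ?_⟩
  · intro z y hzy hz
    rcases Finset.mem_insert.1 hz with h | h
    · subst h
      exact Finset.mem_insert_of_mem (hup y hzy)
    · exact Finset.mem_insert_of_mem (hF.up z y hzy h)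
  · intro z y hzy hz hy
    exact hF.mono z y hzy (fun h => hz (Finset.mem_insert_of_mem h))
      (fun h => hy (Finset.mem_insert_of_mem h))
  · intro z y hzy hz
    rcases Finset.mem_insert.1 hz with h | h
    · subst h
      exact lt_of_le_of_ne (hmax y) (htop y hzy)
    · exact hF.anti z y hzy h
  · intro z hz
    rcases Finset.mem_insert.1 hz with h | h
    · subst h; exact hx
    · exact hF.pos z h

omit [Fintype α] in
theorem valid_erase {m : ℕ} {F : Finset α} {φ : α → ℕ} {x : α}
    (hmax : ∀ y, φ y ≤ φ x) (hF : Valid m F φ) (hxF : x ∈ F) :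
    Valid m (F.erase x) φ := by
  refine ⟨?_, ?_, ?_, ?_⟩
  · intro z y hzy hz
    have hz' := Finset.mem_of_mem_erase hz
    refine Finset.mem_erase.2 ⟨?_, hF.up z y hzy hz'⟩
    rintro rfl
    have := hF.anti z y hzy hz'
    exact absurd (hmax z) (not_le.2 this)
  · intro z y hzy hz hy
    by_cases hzx : z = x
    · subst hzx
      exfalso
      apply hy
      exact Finset.mem_erase.2 ⟨ne_of_gt hzy, hF.up z y hzy hxF⟩
    · have hzF : z ∉ F := fun h => hz (Finset.mem_erase.2 ⟨hzx, h⟩)
      by_cases hyx : y = x
      · subst hyx; exact hmax z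
      · exact hF.mono z y hzy hzF (fun h => hy (Finset.mem_erase.2 ⟨hyx, h⟩))
  · intro z y hzy hz
    exact hF.anti z y hzy (Finset.mem_of_mem_erase hz)
  · intro z hz
    exact hF.pos z (Finset.mem_of_mem_erase hz)

/-- The sign reversing involution. -/
theorem sum_valid (m : ℕ) (φ : α → ℕ) :
    ∑ F ∈ (univ : Finset (Finset α)).filter (fun F => Valid m F φ), (-1 : ℤ) ^ F.card =
      if (Monotone φ ∧ ∀ x, φ x ≤ m) then 1 else 0 := by
  by_cases hle : ∀ x, φ x ≤ m
  · have hemp : ∀ F : Finset α, Valid m F φ → F = ∅ := by
      intro F hF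
      rw [Finset.eq_empty_iff_forall_notMem]
      intro x hx
      exact absurd (hle x) (not_le.2 (hF.pos x hx))
    by_cases hmono : Monotone φ
    · rw [if_pos ⟨hmono, hle⟩]
      have : (univ : Finset (Finset α)).filter (fun F => Valid m F φ) = {∅} := by
        ext F
        simp only [Finset.mem_filter, Finset.mem_univ, true_and, Finset.mem_singleton]
        constructor
        · exact hemp F
        · rintro rfl
          exact ⟨by simp, fun x y h _ _ => hmono h.le, by simp, by simp⟩
      rw [this]; simp
    · rw [if_neg (fun h => hmono h.1)]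
      have : (univ : Finset (Finset α)).filter (fun F => Valid m F φ) = ∅ := by
        rw [Finset.filter_eq_empty_iff]
        intro F _ hF
        apply hmono
        have := hemp F hF
        subst this
        intro x y hxy
        rcases eq_or_lt_of_le hxy with h | h
        · subst h; rfl
        · exact hF.mono x y h (by simp) (by simp)
      rw [this]; simp
  · rw [if_neg (fun h => hle h.2)]
    push Not at hle
    obtain ⟨x0, hx0⟩ := hle
    obtain ⟨x1, -, hx1⟩ := Finset.exists_max_image (univ : Finset α) φ ⟨x0, Finset.mem_univ _⟩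
    -- a maximal element among those with the maximal value
    obtain ⟨x, hx⟩ := (Set.toFinite {y : α | φ y = φ x1}).exists_maximal ⟨x1, rfl⟩
    have hxM : φ x = φ x1 := hx.prop
    have hmax : ∀ y, φ y ≤ φ x := fun y => by rw [hxM]; exact hx1 y (Finset.mem_univ _)
    have htop : ∀ y, x < y → φ y ≠ φ x := by
      intro y hy h
      have h2 : y ≤ x := hx.le_of_ge (show φ y = φ x1 by rw [h, hxM]) hy.le
      exact absurd h2 (not_le_of_gt hy)
    have hxm : m < φ x := lt_of_lt_of_le hx0 (hmax x0)
    refine Finset.sum_involution (fun F _ => if x ∈ F then F.erase x else insert x F) ?_ ?_ ?_ ?_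
    · intro F hF
      by_cases hxF : x ∈ F
      · simp only [hxF, if_true]
        have : F.card = (F.erase x).card + 1 := by
          rw [Finset.card_erase_of_mem hxF]
          have := Finset.card_pos.2 ⟨x, hxF⟩
          omega
        rw [this, pow_succ]; ring
      · simp only [hxF, if_false]
        rw [Finset.card_insert_of_notMem hxF, pow_succ]; ring
    · intro F hF _
      by_cases hxF : x ∈ F
      · simp only [hxF, if_true]
        intro h
        rw [← h] at hxF
        simp at hxF
      · simp only [hxF, if_false]
        intro h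
        rw [← h] at hxF
        simp at hxF
    · intro F hF
      simp only [Finset.mem_filter, Finset.mem_univ, true_and] at hF ⊢
      by_cases hxF : x ∈ F
      · simp only [hxF, if_true]
        exact valid_erase hmax hF hxF
      · simp only [hxF, if_false]
        exact valid_insert hxm hmax htop hF hxF
    · intro F hF
      by_cases hxF : x ∈ F
      · simp [hxF]
      · simp [hxF]

end Run7.h93
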