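import Mathlib
import Pool.Agent.Run7.h93.Invol

set_option autoImplicit false

open Finset
open scoped Classical

namespace Run7.h93

variable {α : Type*} [Fintype α] [PartialOrder α]

/-- Generating function (by the sum of the values) of a class of functions `α → ℕ`. -/
noncomputable def gf (p : (α → ℕ) → Prop) : PowerSeries ℤ :=
  PowerSeries.mk fun n => ((((Finset.piAntidiag (univ : Finset α) n).filter p).card : ℕ) : ℤ)

omit [PartialOrder α] in
theorem coeff_gf (p : (α → ℕ) → Prop) (n : ℕ) :
    PowerSeries.coeff n (gf p) =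
      ((((Finset.piAntidiag (univ : Finset α) n).filter p).card : ℕ) : ℤ) := by
  simp [gf]

theorem gf_monotone_le (m : ℕ) :
    gf (fun φ : α → ℕ => Monotone φ ∧ ∀ x, φ x ≤ m) =
      ∑ F : Finset α, (-1 : PowerSeries ℤ) ^ F.card * gf (Valid m F) := by
  ext n
  rw [coeff_gf]
  rw [map_sum]
  have h1 : ∀ F : Finset α, PowerSeries.coeff n ((-1 : PowerSeries ℤ) ^ F.card * gf (Valid m F)) =
      ∑ φ ∈ Finset.piAntidiag (univ : Finset α) n, if Valid m F φ then (-1 : ℤ) ^ F.card else 0 := by
    intro F
    have : (-1 : PowerSeries ℤ) ^ F.card = PowerSeries.C ((-1 : ℤ) ^ F.card) := by simp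
    rw [this, PowerSeries.coeff_C_mul, coeff_gf, ← Finset.sum_filter, Finset.sum_const]
    simp [mul_comm]
  rw [Finset.sum_congr rfl (fun F _ => h1 F), Finset.sum_comm]
  rw [Finset.card_filter]
  push_cast
  refine Finset.sum_congr rfl fun φ _ => ?_
  rw [← sum_valid m φ, Finset.sum_filter]

theorem gf_valid_shift (m : ℕ) (F : Finset α) :
    gf (Valid m F) = (PowerSeries.X : PowerSeries ℤ) ^ (m * F.card) * gf (Valid 0 F) := by
  ext n
  rw [PowerSeries.coeff_X_pow_mul', coeff_gf]
  split_ifs with h
  · rw [coeff_gf]
    norm_cast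
    refine Finset.card_bij' (fun φ _ => fun x => if x ∈ F then φ x - m else φ x)
      (fun φ _ => fun x => if x ∈ F then φ x + m else φ x) ?_ ?_ ?_ ?_
    · intro φ hφ
      simp only [Finset.mem_filter, Finset.mem_piAntidiag, Finset.mem_univ, implies_true,
        and_true] at hφ ⊢
      obtain ⟨hs, hv⟩ := hφ
      have hs' : ∑ x, φ x = n := hs
      constructor
      · have : ∑ x, φ x = ∑ x, (if x ∈ F then φ x - m else φ x) + m * F.card := by
          have h2 : m * F.card = ∑ x, if x ∈ F then m else 0 := by
            rw [← Finset.sum_filter]; simp [mul_comm]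
          rw [h2, ← Finset.sum_add_distrib]
          refine Finset.sum_congr rfl fun x _ => ?_
          split_ifs with hx
          · have := hv.pos x hx; omega
          · simp
        omega
      · refine ⟨hv.up, ?_, ?_, ?_⟩
        · intro x y hxy hx hy
          simp only [hx, hy, if_false]
          exact hv.mono x y hxy hx hy
        · intro x y hxy hx
          have hy := hv.up x y hxy hx
          simp only [hx, hy, if_true]
          have h1 := hv.anti x y hxy hx
          have h2 := hv.pos x hx
          have h3 := hv.pos y hy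
          omega
        · intro x hx
          simp only [hx, if_true]
          have h2 := hv.pos x hx
          omega
    · intro φ hφ
      simp only [Finset.mem_filter, Finset.mem_piAntidiag, Finset.mem_univ, implies_true,
        and_true] at hφ ⊢
      obtain ⟨hs, hv⟩ := hφ
      have hs' : ∑ x, φ x = n - m * F.card := hs
      constructor
      · have : ∑ x, (if x ∈ F then φ x + m else φ x) = ∑ x, φ x + m * F.card := by
          have h2 : m * F.card = ∑ x, if x ∈ F then m else 0 := by
            rw [← Finset.sum_filter]; simp [mul_comm]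
          rw [h2, ← Finset.sum_add_distrib]
          refine Finset.sum_congr rfl fun x _ => ?_
          split_ifs with hx
          · rfl
          · simp
        omega
      · refine ⟨hv.up, ?_, ?_, ?_⟩
        · intro x y hxy hx hy
          simp only [hx, hy, if_false]
          exact hv.mono x y hxy hx hy
        · intro x y hxy hx
          have hy := hv.up x y hxy hx
          simp only [hx, hy, if_true]
          have h1 := hv.anti x y hxy hx
          omega
        · intro x hx
          simp only [hx, if_true]
          have h2 := hv.pos x hx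
          omega
    · intro φ hφ
      simp only [Finset.mem_filter, Finset.mem_piAntidiag, Finset.mem_univ, implies_true,
        and_true] at hφ
      obtain ⟨hs, hv⟩ := hφ
      ext x
      by_cases hx : x ∈ F
      · have h2 := hv.pos x hx
        simp only [hx, if_true]; omega
      · simp [hx]
    · intro φ hφ
      ext x
      by_cases hx : x ∈ F
      · simp [hx]
      · simp [hx]
  · norm_cast
    rw [Finset.card_eq_zero, Finset.filter_eq_empty_iff]
    intro φ hφ hv
    simp only [Finset.mem_piAntidiag, Finset.mem_univ, implies_true, and_true] at hφ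
    apply h
    rw [← hφ]
    calc m * F.card = ∑ x ∈ F, m := by simp [mul_comm]
      _ ≤ ∑ x ∈ F, φ x := Finset.sum_le_sum fun x hx => (hv.pos x hx).le
      _ ≤ ∑ x, φ x := Finset.sum_le_sum_of_subset (Finset.subset_univ _)

/-- The slice of the signed identity by up-sets with `k` elements. -/
noncomputable def slice (α : Type*) [Fintype α] [PartialOrder α] (k : ℕ) : PowerSeries ℤ :=
  ∑ F ∈ Finset.powersetCard k (univ : Finset α), gf (Valid 0 F)

theorem gf_monotone_le' (m : ℕ) :
    gf (fun φ : α → ℕ => Monotone φ ∧ ∀ x, φ x ≤ m) =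
      ∑ k ∈ Finset.range (Fintype.card α + 1),
        (-1 : PowerSeries ℤ) ^ k * ((PowerSeries.X : PowerSeries ℤ) ^ (m * k) * slice α k) := by
  rw [gf_monotone_le]
  have : (univ : Finset (Finset α)) = (univ : Finset α).powerset := by
    simp
  rw [this, Finset.sum_powerset]
  rw [Finset.card_univ]
  refine Finset.sum_congr rfl fun k _ => ?_
  rw [slice, Finset.mul_sum, Finset.mul_sum]
  refine Finset.sum_congr rfl fun F hF => ?_
  rw [gf_valid_shift, (Finset.mem_powersetCard.1 hF).2]

theorem slices_zero (D : ℕ → PowerSeries ℤ) (K : ℕ)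
    (h : ∀ m : ℕ, ∑ k ∈ Finset.range K, (PowerSeries.X : PowerSeries ℤ) ^ (m * k) * D k = 0) :
    ∀ k < K, D k = 0 := by
  intro k
  induction k using Nat.strong_induction_on with
  | _ k ih =>
    intro hk
    ext j
    have h1 := congrArg (PowerSeries.coeff ((j + 1) * k + j)) (h (j + 1))
    rw [map_sum] at h1
    have h2 : ∀ i ∈ Finset.range K, i ≠ k →
        PowerSeries.coeff ((j + 1) * k + j)
          ((PowerSeries.X : PowerSeries ℤ) ^ ((j + 1) * i) * D i) = 0 := by
      intro i hi hik
      rcases lt_or_gt_of_ne hik with hlt | hgt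
      · rw [ih i hlt (Finset.mem_range.1 hi)]; simp
      · rw [PowerSeries.coeff_X_pow_mul', if_neg]
        have : (j + 1) * (k + 1) ≤ (j + 1) * i := Nat.mul_le_mul_left _ hgt
        nlinarith
    rw [Finset.sum_eq_single k h2 (fun hn => absurd (Finset.mem_range.2 hk) hn)] at h1
    rw [PowerSeries.coeff_X_pow_mul', if_pos (by omega)] at h1
    simpa using h1

/-- The polynomial `U_m` seen as a power series. -/
theorem coe_U (m : ℕ) :
    ((∑ σ ∈ (Finset.univ.filter (fun σ : α → Fin (m + 1) => Monotone σ)),
        (Polynomial.X : Polynomial ℤ) ^ (∑ x, (σ x).val) : Polynomial ℤ) : PowerSeries ℤ) =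
      gf (fun φ : α → ℕ => Monotone φ ∧ ∀ x, φ x ≤ m) := by
  ext n
  rw [Polynomial.coeff_coe, Polynomial.finsetSum_coeff, coeff_gf]
  simp only [Polynomial.coeff_X_pow]
  rw [← Finset.sum_filter, Finset.sum_const, Finset.filter_filter]
  simp only [nsmul_eq_mul, mul_one]
  norm_cast
  refine Finset.card_bij' (fun σ _ => fun x => (σ x).val)
    (fun φ _ => fun x => Fin.ofNat (m + 1) (φ x)) ?_ ?_ ?_ ?_
  · intro σ hσ
    simp only [Finset.mem_filter, Finset.mem_piAntidiag, Finset.mem_univ, implies_true,
      and_true, true_and] at hσ ⊢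
    refine ⟨hσ.2.symm, fun x y hxy => hσ.1 hxy, fun x => ?_⟩
    have := (σ x).isLt
    omega
  · intro φ hφ
    simp only [Finset.mem_filter, Finset.mem_piAntidiag, Finset.mem_univ, implies_true,
      and_true, true_and] at hφ ⊢
    obtain ⟨hs, hm, hle⟩ := hφ
    have hval : ∀ x, (Fin.ofNat (m + 1) (φ x)).val = φ x := by
      intro x
      simp only [Fin.ofNat]
      exact Nat.mod_eq_of_lt (by have := hle x; omega)
    refine ⟨fun x y hxy => ?_, ?_⟩
    · rw [Fin.le_iff_val_le_val, hval, hval]; exact hm hxy
    · rw [← hs]; exact Finset.sum_congr rfl fun x _ => (hval x).symm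
  · intro σ hσ
    ext x
    simp only [Fin.ofNat]
    exact Nat.mod_eq_of_lt (σ x).isLt
  · intro φ hφ
    simp only [Finset.mem_filter, Finset.mem_piAntidiag, Finset.mem_univ, implies_true,
      and_true] at hφ
    ext x
    simp only [Fin.ofNat]
    exact Nat.mod_eq_of_lt (by have := hφ.2.2 x; omega)

/-- The Gaussian identities for the numbers `h`. -/
def GaussianWith (α : Type*) [Fintype α] [PartialOrder α] (h : Fin (Fintype.card α) → ℕ) : Prop :=
  (∀ i, 0 < h i) ∧
    ∀ m : ℕ,
      (∑ σ ∈ (Finset.univ.filter (fun σ : α → Fin (m + 1) => Monotone σ)),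
          (Polynomial.X : Polynomial ℤ) ^ (∑ x, (σ x).val)) *
        ∏ i, (1 - (Polynomial.X : Polynomial ℤ) ^ (h i)) =
      ∏ i, (1 - (Polynomial.X : Polynomial ℤ) ^ (m + h i))

/-- The master identity, slice by slice. -/
theorem master {h : Fin (Fintype.card α) → ℕ} (H : GaussianWith α h) (k : ℕ) :
    slice α k * ∏ i, (1 - (PowerSeries.X : PowerSeries ℤ) ^ (h i)) =
      ∑ E ∈ Finset.powersetCard k (univ : Finset (Fin (Fintype.card α))),
        (PowerSeries.X : PowerSeries ℤ) ^ (∑ i ∈ E, h i) := by
  by_cases hk : k < Fintype.card α + 1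
  · have key := slices_zero (fun k => (-1 : PowerSeries ℤ) ^ k *
      (slice α k * ∏ i, (1 - (PowerSeries.X : PowerSeries ℤ) ^ (h i)) -
      ∑ E ∈ Finset.powersetCard k (univ : Finset (Fin (Fintype.card α))),
        (PowerSeries.X : PowerSeries ℤ) ^ (∑ i ∈ E, h i))) (Fintype.card α + 1) ?_ k hk
    · have h1 : ((-1 : PowerSeries ℤ) ^ k) ≠ 0 := by
        apply pow_ne_zero
        simp
      have h2 := (mul_eq_zero.1 key).resolve_left h1
      exact sub_eq_zero.1 h2
    · intro m
      have h3 := congrArg (fun p : Polynomial ℤ => (p : PowerSeries ℤ)) (H.2 m)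
      simp only [Polynomial.coe_mul] at h3
      rw [coe_U, gf_monotone_le'] at h3
      have hcoe : ∀ (f : Fin (Fintype.card α) → ℕ),
          ((∏ i, (1 - (Polynomial.X : Polynomial ℤ) ^ (f i)) : Polynomial ℤ) : PowerSeries ℤ) =
            ∏ i, (1 - (PowerSeries.X : PowerSeries ℤ) ^ (f i)) := by
        intro f
        have h5 := map_prod (Polynomial.coeToPowerSeries.ringHom (R := ℤ))
          (fun i => (1 - (Polynomial.X : Polynomial ℤ) ^ (f i))) univ
        rw [Polynomial.coeToPowerSeries.ringHom_apply] at h5
        rw [h5]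
        refine Finset.prod_congr rfl fun i _ => ?_
        simp
      rw [hcoe, hcoe] at h3
      have h4 : ∏ i, (1 - (PowerSeries.X : PowerSeries ℤ) ^ (m + h i)) =
          ∑ k ∈ Finset.range (Fintype.card α + 1), (-1 : PowerSeries ℤ) ^ k *
            ((PowerSeries.X : PowerSeries ℤ) ^ (m * k) *
            ∑ E ∈ Finset.powersetCard k (univ : Finset (Fin (Fintype.card α))),
              (PowerSeries.X : PowerSeries ℤ) ^ (∑ i ∈ E, h i)) := by
        have h6 : ∀ i, (1 - (PowerSeries.X : PowerSeries ℤ) ^ (m + h i)) =
            1 + (-1 : PowerSeries ℤ) * (PowerSeries.X : PowerSeries ℤ) ^ (m + h i) := by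
          intro i; ring
        rw [Finset.prod_congr rfl (fun i _ => h6 i), Finset.prod_one_add, Finset.sum_powerset]
        simp only [Finset.card_univ, Fintype.card_fin]
        refine Finset.sum_congr rfl fun k _ => ?_
        rw [Finset.mul_sum, Finset.mul_sum]
        refine Finset.sum_congr rfl fun E hE => ?_
        rw [Finset.prod_mul_distrib, Finset.prod_const, (Finset.mem_powersetCard.1 hE).2,
          Finset.prod_pow_eq_pow_sum, Finset.sum_add_distrib, pow_add]
        simp [(Finset.mem_powersetCard.1 hE).2, mul_comm k m]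
      rw [h4, Finset.sum_mul] at h3
      rw [← sub_eq_zero, ← Finset.sum_sub_distrib] at h3
      rw [← h3]
      refine Finset.sum_congr rfl fun k _ => ?_
      ring
  · have h1 : Finset.powersetCard k (univ : Finset α) = ∅ := by
      apply Finset.powersetCard_eq_empty.2
      simpa [Finset.card_univ] using by omega
    have h2 : Finset.powersetCard k (univ : Finset (Fin (Fintype.card α))) = ∅ := by
      apply Finset.powersetCard_eq_empty.2
      simp only [Finset.card_univ, Fintype.card_fin]
      omega
    rw [slice, h1, h2]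
    simp

end Run7.h93
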