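import Mathlib
import Pool.Agent.Run7.h93.Gf

set_option autoImplicit false

open Finset
open scoped Classical

namespace Run7.h93

variable {α : Type*} [Fintype α] [PartialOrder α]

/-- The largest `ω`-weight of a chain starting at `x` and going up. -/
noncomputable def wht (ω : α → ℕ) : α → ℕ :=
  (wellFounded_gt (α := α)).fix
    (fun x ih => ω x + (univ : Finset {y // x < y}).sup (fun y => ih y.1 y.2))

theorem wht_eq (ω : α → ℕ) (x : α) :
    wht ω x = ω x + (univ : Finset {y // x < y}).sup (fun y => wht ω y.1) := by
  unfold wht
  exact WellFounded.fix_eq _ _ _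

theorem wht_lt (ω : α → ℕ) {x y : α} (h : x < y) : ω x + wht ω y ≤ wht ω x := by
  rw [wht_eq ω x]
  have := Finset.le_sup (f := fun y : {y // x < y} => wht ω y.1) (Finset.mem_univ ⟨y, h⟩)
  simpa using this

theorem wht_cases (ω : α → ℕ) (x : α) :
    wht ω x = ω x ∨ ∃ y, x < y ∧ wht ω x = ω x + wht ω y := by
  by_cases hne : (univ : Finset {y // x < y}).Nonempty
  · right
    obtain ⟨y, -, hy⟩ := Finset.exists_mem_eq_sup _ hne (fun y : {y // x < y} => wht ω y.1)
    exact ⟨y.1, y.2, by rw [wht_eq ω x, hy]⟩
  · left
    rw [Finset.not_nonempty_iff_eq_empty] at hne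
    rw [wht_eq ω x, hne]
    simp

/-- The number of elements of a longest chain from `x` up to a maximal element. -/
noncomputable def ht (x : α) : ℕ := wht (fun _ => 1) x

theorem ht_lt {x y : α} (h : x < y) : ht y < ht x := by
  have := wht_lt (fun _ : α => 1) h
  unfold ht
  omega

theorem ht_pos (x : α) : 0 < ht x := by
  rcases wht_cases (fun _ : α => 1) x with h | ⟨y, -, h⟩ <;> unfold ht <;> omega

theorem ht_step (x : α) (h : ht x ≠ 1) : ∃ y, x < y ∧ ht x = ht y + 1 := by
  rcases wht_cases (fun _ : α => 1) x with h' | ⟨y, hy, h'⟩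
  · exact absurd h' h
  · exact ⟨y, hy, by unfold ht; omega⟩

theorem valid_ge {m : ℕ} {F : Finset α} {φ : α → ℕ} (hv : Valid m F φ) (x : α) (hx : x ∈ F) :
    m + ht x ≤ φ x := by
  induction x using (wellFounded_gt (α := α)).induction with
  | _ x ih =>
    by_cases h : ht x = 1
    · have := hv.pos x hx
      omega
    · obtain ⟨y, hy, hxy⟩ := ht_step x h
      have h1 := ih y hy (hv.up x y hy hx)
      have h2 := hv.anti x y hy hx
      omega

/-- The smallest admissible function for `F`. -/
noncomputable def base (F : Finset α) : α → ℕ := fun x => if x ∈ F then ht x else 0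

theorem base_le {F : Finset α} {φ : α → ℕ} (hv : Valid 0 F φ) (x : α) : base F x ≤ φ x := by
  unfold base
  split_ifs with hx
  · have := valid_ge hv x hx
    omega
  · omega

theorem valid_base {F : Finset α} (hF : ∀ x y, x < y → x ∈ F → y ∈ F) :
    Valid 0 F (base F) := by
  refine ⟨hF, ?_, ?_, ?_⟩
  · intro x y _ hx hy
    simp [base, hx, hy]
  · intro x y hxy hx
    have hy := hF x y hxy hx
    simp only [base, hx, hy, if_true]
    exact ht_lt hxy
  · intro x hx
    simp only [base, hx, if_true]
    exact ht_pos x

/-- The total height of `F`. -/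
noncomputable def hs (F : Finset α) : ℕ := ∑ x ∈ F, ht x

theorem sum_base (F : Finset α) : ∑ x, base F x = hs F := by
  unfold base hs
  rw [← Finset.sum_filter]
  simp

/-- The generating function of admissible functions, divided by its lowest monomial. -/
noncomputable def red (F : Finset α) : PowerSeries ℤ :=
  PowerSeries.mk fun n => PowerSeries.coeff (n + hs F) (gf (Valid 0 F))

theorem gf_eq_red (F : Finset α) :
    gf (Valid 0 F) = (PowerSeries.X : PowerSeries ℤ) ^ (hs F) * red F := by
  ext n
  rw [PowerSeries.coeff_X_pow_mul']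
  split_ifs with h
  · rw [red, PowerSeries.coeff_mk, Nat.sub_add_cancel h]
  · rw [coeff_gf]
    norm_cast
    rw [Finset.card_eq_zero, Finset.filter_eq_empty_iff]
    intro φ hφ hv
    simp only [Finset.mem_piAntidiag, Finset.mem_univ, implies_true, and_true] at hφ
    apply h
    rw [← hφ, ← sum_base]
    exact Finset.sum_le_sum fun x _ => base_le hv x

/-- `F` is an up-set. -/
def IsUp (F : Finset α) : Prop := ∀ x y : α, x < y → x ∈ F → y ∈ F

theorem coeff_zero_red (F : Finset α) :
    PowerSeries.coeff 0 (red F) = if IsUp F then 1 else 0 := by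
  rw [red, PowerSeries.coeff_mk, coeff_gf, zero_add]
  split_ifs with h
  · norm_cast
    rw [Finset.card_eq_one]
    refine ⟨base F, ?_⟩
    ext φ
    simp only [Finset.mem_filter, Finset.mem_piAntidiag, Finset.mem_univ, implies_true, and_true,
      Finset.mem_singleton]
    constructor
    · rintro ⟨hs', hv⟩
      have h1 : ∑ x, base F x = ∑ x, φ x := by rw [sum_base]; exact hs'.symm
      have h2 := (Finset.sum_eq_sum_iff_of_le (fun x _ => base_le hv x)).1 h1
      funext x
      exact (h2 x (Finset.mem_univ _)).symm
    · rintro rfl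
      exact ⟨sum_base F, valid_base h⟩
  · norm_cast
    rw [Finset.card_eq_zero, Finset.filter_eq_empty_iff]
    intro φ _ hv
    exact h hv.up

theorem coeff_one_red (F : Finset α) :
    PowerSeries.coeff 1 (red F) =
      (((univ : Finset α).filter
        (fun x => Valid 0 F (fun y => base F y + if y = x then 1 else 0))).card : ℤ) := by
  rw [red, PowerSeries.coeff_mk, coeff_gf]
  norm_cast
  symm
  refine Finset.card_bij (fun x _ => fun y => base F y + if y = x then 1 else 0) ?_ ?_ ?_
  · intro x hx
    simp only [Finset.mem_filter, Finset.mem_univ, true_and] at hx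
    simp only [Finset.mem_filter, Finset.mem_piAntidiag, Finset.mem_univ, implies_true, and_true]
    refine ⟨?_, hx⟩
    rw [Finset.sum_add_distrib, sum_base]
    simp [add_comm]
  · intro x _ y _ hxy
    have := congrFun hxy x
    simp only [if_true] at this
    by_contra hne
    simp [hne] at this
  · intro φ hφ
    simp only [Finset.mem_filter, Finset.mem_piAntidiag, Finset.mem_univ, implies_true,
      and_true] at hφ
    obtain ⟨hsum, hv⟩ := hφ
    have hsum' : ∑ y, φ y = 1 + hs F := hsum
    -- the excess is one at exactly one point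
    have hex : ∑ y, (φ y - base F y) = 1 := by
      have h1 : ∑ y, φ y = ∑ y, (φ y - base F y) + ∑ y, base F y := by
        rw [← Finset.sum_add_distrib]
        refine Finset.sum_congr rfl fun y _ => ?_
        have := base_le hv y
        omega
      rw [sum_base] at h1
      omega
    obtain ⟨x, hx⟩ : ∃ x, φ x - base F x ≠ 0 := by
      by_contra hcon
      push Not at hcon
      rw [Finset.sum_eq_zero (fun y _ => hcon y)] at hex
      omega
    have hrest : ∀ y, y ≠ x → φ y - base F y = 0 := by
      intro y hy
      have h1 : (φ x - base F x) + (φ y - base F y) ≤ ∑ z, (φ z - base F z) := by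
        have h2 : ∑ z ∈ {x, y}, (φ z - base F z) ≤ ∑ z, (φ z - base F z) :=
          Finset.sum_le_sum_of_subset (Finset.subset_univ _)
        rwa [Finset.sum_pair (Ne.symm hy)] at h2
      omega
    have hx1 : φ x - base F x = 1 := by
      rw [Finset.sum_eq_single x (fun y _ hy => hrest y hy) (by simp)] at hex
      exact hex
    have hφeq : (fun y => base F y + if y = x then 1 else 0) = φ := by
      funext y
      have hb := base_le hv y
      by_cases hy : y = x
      · subst hy; simp only [if_true]; omega
      · have := hrest y hy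
        simp only [hy, if_false]; omega
    refine ⟨x, ?_, hφeq⟩
    simp only [Finset.mem_filter, Finset.mem_univ, true_and]
    rw [hφeq]
    exact hv

end Run7.h93
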