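import Mathlib
import Pool.Agent.Run7.h93.Height

set_option autoImplicit false

open Finset
open scoped Classical

namespace Run7.h93

variable {α : Type*} [Fintype α] [PartialOrder α]

/-- The excess of the up-set `F` at level `j`. -/
noncomputable def exc (j : ℕ) (F : Finset α) : ℕ :=
  ∑ x ∈ F, (ht x - j) + ∑ x ∈ Fᶜ, (j - ht x)

theorem hs_add (j : ℕ) (F : Finset α) :
    j * Fᶜ.card + hs F = ∑ x : α, min j (ht x) + exc j F := by
  have h1 : ∑ x : α, min j (ht x) = ∑ x ∈ F, min j (ht x) + ∑ x ∈ Fᶜ, min j (ht x) :=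
    (Finset.sum_add_sum_compl F _).symm
  have h2 : hs F = ∑ x ∈ F, min j (ht x) + ∑ x ∈ F, (ht x - j) := by
    rw [hs, ← Finset.sum_add_distrib]
    exact Finset.sum_congr rfl fun x _ => by omega
  have h3 : j * Fᶜ.card = ∑ x ∈ Fᶜ, min j (ht x) + ∑ x ∈ Fᶜ, (j - ht x) := by
    have : j * Fᶜ.card = ∑ x ∈ Fᶜ, j := by simp [mul_comm]
    rw [this, ← Finset.sum_add_distrib]
    exact Finset.sum_congr rfl fun x _ => by omega
  rw [h1, h2, h3, exc]
  ring

/-- The left hand side of the identity at level `j`. -/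
noncomputable def lev {R : Type*} [CommRing R] (a b : R) (j : ℕ) (α : Type*) [Fintype α]
    [PartialOrder α] : PowerSeries R :=
  ∑ F : Finset α, PowerSeries.C (b ^ F.card * a ^ Fᶜ.card) *
    (PowerSeries.X : PowerSeries R) ^ (exc j F) * PowerSeries.map (Int.castRingHom R) (red F)

/-- The right hand side of the identity at level `j`. -/
noncomputable def levR {R : Type*} [CommRing R] (a b : R) (j : ℕ) {ι : Type*} [Fintype ι]
    (h : ι → ℕ) : PowerSeries R :=
  ∏ i, (PowerSeries.C b * (PowerSeries.X : PowerSeries R) ^ (h i - j) +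
    PowerSeries.C a * (PowerSeries.X : PowerSeries R) ^ (j - h i))

theorem slope0 {h : Fin (Fintype.card α) → ℕ} (H : GaussianWith α h)
    {R : Type*} [CommRing R] (a b : R) (j k : ℕ) :
    (∑ F ∈ Finset.powersetCard k (univ : Finset α), PowerSeries.C (b ^ F.card * a ^ Fᶜ.card) *
      (PowerSeries.X : PowerSeries R) ^ (j * Fᶜ.card) *
        PowerSeries.map (Int.castRingHom R) (gf (Valid 0 F))) *
      ∏ i, (1 - (PowerSeries.X : PowerSeries R) ^ (h i)) =
    ∑ E ∈ Finset.powersetCard k (univ : Finset (Fin (Fintype.card α))),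
      (∏ i ∈ E, (PowerSeries.C b * (PowerSeries.X : PowerSeries R) ^ (h i))) *
        ∏ _i ∈ Eᶜ, (PowerSeries.C a * (PowerSeries.X : PowerSeries R) ^ j) := by
  have h1 : ∑ F ∈ Finset.powersetCard k (univ : Finset α),
      PowerSeries.C (b ^ F.card * a ^ Fᶜ.card) *
      (PowerSeries.X : PowerSeries R) ^ (j * Fᶜ.card) *
        PowerSeries.map (Int.castRingHom R) (gf (Valid 0 F)) =
      PowerSeries.C (b ^ k * a ^ (Fintype.card α - k)) *
        (PowerSeries.X : PowerSeries R) ^ (j * (Fintype.card α - k)) *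
        PowerSeries.map (Int.castRingHom R) (slice α k) := by
    rw [slice, map_sum, Finset.mul_sum]
    refine Finset.sum_congr rfl fun F hF => ?_
    rw [Finset.card_compl, (Finset.mem_powersetCard.1 hF).2]
  have h2 : PowerSeries.map (Int.castRingHom R)
      (slice α k * ∏ i, (1 - (PowerSeries.X : PowerSeries ℤ) ^ (h i))) =
      PowerSeries.map (Int.castRingHom R) (slice α k) *
      ∏ i, (1 - (PowerSeries.X : PowerSeries R) ^ (h i)) := by
    rw [map_mul, map_prod]
    congr 1
    refine Finset.prod_congr rfl fun i _ => ?_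
    simp
  rw [h1, mul_assoc, ← h2, master H k, map_sum, Finset.mul_sum]
  refine Finset.sum_congr rfl fun E hE => ?_
  have hEc := (Finset.mem_powersetCard.1 hE).2
  rw [Finset.prod_mul_distrib, Finset.prod_const, Finset.prod_pow_eq_pow_sum, Finset.prod_const,
    Finset.card_compl, Fintype.card_fin, hEc, mul_pow]
  simp only [map_pow, map_mul, PowerSeries.map_X]
  ring

theorem slope {h : Fin (Fintype.card α) → ℕ} (H : GaussianWith α h)
    {R : Type*} [CommRing R] (a b : R) (j : ℕ) :
    (PowerSeries.X : PowerSeries R) ^ (∑ x : α, min j (ht x)) * (lev a b j α *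
      ∏ i, (1 - (PowerSeries.X : PowerSeries R) ^ (h i))) =
    (PowerSeries.X : PowerSeries R) ^ (∑ i, min j (h i)) * levR a b j h := by
  have h1 : (PowerSeries.X : PowerSeries R) ^ (∑ i, min j (h i)) * levR a b j h =
      ∏ i, (PowerSeries.C b * (PowerSeries.X : PowerSeries R) ^ (h i) +
        PowerSeries.C a * (PowerSeries.X : PowerSeries R) ^ j) := by
    rw [levR, ← Finset.prod_pow_eq_pow_sum, ← Finset.prod_mul_distrib]
    refine Finset.prod_congr rfl fun i _ => ?_
    have e1 : (PowerSeries.X : PowerSeries R) ^ (h i) =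
        (PowerSeries.X : PowerSeries R) ^ (min j (h i)) * PowerSeries.X ^ (h i - j) := by
      rw [← pow_add]; congr 1; omega
    have e2 : (PowerSeries.X : PowerSeries R) ^ j =
        (PowerSeries.X : PowerSeries R) ^ (min j (h i)) * PowerSeries.X ^ (j - h i) := by
      rw [← pow_add]; congr 1; omega
    rw [e1]
    conv_rhs => rw [e2]
    ring
  have h2 : (PowerSeries.X : PowerSeries R) ^ (∑ x : α, min j (ht x)) * lev a b j α =
      ∑ F : Finset α, PowerSeries.C (b ^ F.card * a ^ Fᶜ.card) *
      (PowerSeries.X : PowerSeries R) ^ (j * Fᶜ.card) *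
        PowerSeries.map (Int.castRingHom R) (gf (Valid 0 F)) := by
    rw [lev, Finset.mul_sum]
    refine Finset.sum_congr rfl fun F _ => ?_
    have e1 : (PowerSeries.X : PowerSeries R) ^ (∑ x : α, min j (ht x)) *
        PowerSeries.X ^ (exc j F) = PowerSeries.X ^ (j * Fᶜ.card) * PowerSeries.X ^ (hs F) := by
      rw [← pow_add, ← pow_add, hs_add]
    have e2 : PowerSeries.map (Int.castRingHom R) (gf (Valid 0 F)) =
        PowerSeries.X ^ (hs F) * PowerSeries.map (Int.castRingHom R) (red F) := by
      rw [gf_eq_red, map_mul, map_pow, PowerSeries.map_X]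
    rw [e2]
    calc _ = PowerSeries.C (b ^ F.card * a ^ Fᶜ.card) *
          ((PowerSeries.X : PowerSeries R) ^ (∑ x : α, min j (ht x)) *
        PowerSeries.X ^ (exc j F)) * PowerSeries.map (Int.castRingHom R) (red F) := by ring
      _ = _ := by rw [e1]; ring
  rw [← mul_assoc, h2, h1]
  have h3 : (univ : Finset (Finset α)) = (univ : Finset α).powerset := by simp
  rw [Fintype.prod_add]
  have h4 : (univ : Finset (Finset (Fin (Fintype.card α)))) =
    (univ : Finset (Fin (Fintype.card α))).powerset := by simp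
  rw [h3, h4, Finset.sum_powerset, Finset.sum_powerset, Finset.sum_mul]
  simp only [Finset.card_univ, Fintype.card_fin]
  exact Finset.sum_congr rfl fun k _ => slope0 H a b j k

end Run7.h93
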