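import Mathlib
import Pool.Agent.Run7.h93.Slope

set_option autoImplicit false

open Finset
open scoped Classical

namespace Run7.h93

variable {α : Type*} [Fintype α] [PartialOrder α]

theorem exc_eq (j : ℕ) (F : Finset α) :
    exc j F = ∑ x : α, if x ∈ F then ht x - j else j - ht x := by
  rw [exc, ← Finset.sum_add_sum_compl F]
  congr 1
  · exact Finset.sum_congr rfl fun x hx => by simp [hx]
  · refine Finset.sum_congr rfl fun x hx => ?_
    rw [Finset.mem_compl] at hx
    simp [hx]

theorem exc_zero_iff (j : ℕ) (F : Finset α) :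
    exc j F = 0 ↔ ((∀ y ∈ F, ht y ≤ j) ∧ (∀ y ∈ Fᶜ, j ≤ ht y)) := by
  rw [exc, Nat.add_eq_zero_iff, Finset.sum_eq_zero_iff, Finset.sum_eq_zero_iff]
  constructor
  · rintro ⟨h1, h2⟩
    exact ⟨fun y hy => by have := h1 y hy; omega, fun y hy => by have := h2 y hy; omega⟩
  · rintro ⟨h1, h2⟩
    exact ⟨fun y hy => by have := h1 y hy; omega, fun y hy => by have := h2 y hy; omega⟩

theorem up_of_exc_zero {j : ℕ} {F : Finset α} (h : exc j F = 0) : IsUp F := by
  rw [exc_zero_iff] at h
  intro x y hxy hx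
  by_contra hy
  have h1 := h.1 x hx
  have h2 := h.2 y (Finset.mem_compl.2 hy)
  have h3 := ht_lt hxy
  omega

/-- Sums of product weights over subsets subject to local conditions. -/
theorem sum_local {ι R : Type*} [Fintype ι] [CommRing R] (a b : R) (P Q : ι → Prop)
    [DecidablePred P] [DecidablePred Q]
    [∀ F : Finset ι, Decidable ((∀ y ∈ F, P y) ∧ (∀ y ∈ Fᶜ, Q y))] :
    ∑ F : Finset ι, (if ((∀ y ∈ F, P y) ∧ (∀ y ∈ Fᶜ, Q y)) then b ^ F.card * a ^ Fᶜ.card else 0) =
      ∏ y, ((if P y then b else 0) + (if Q y then a else 0)) := by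
  rw [Fintype.prod_add]
  refine Finset.sum_congr rfl fun F _ => ?_
  rw [Finset.prod_ite_zero, Finset.prod_ite_zero]
  simp only [Finset.prod_const]
  by_cases h1 : ∀ y ∈ F, P y
  · by_cases h2 : ∀ y ∈ Fᶜ, Q y
    · rw [if_pos ⟨h1, h2⟩, if_pos h1, if_pos h2]
    · rw [if_neg (fun h => h2 h.2), if_pos h1, if_neg h2, mul_zero]
  · rw [if_neg (fun h => h1 h.1), if_neg h1, zero_mul]

/-- The local weight at level `j`. -/
noncomputable def zz {ι R : Type*} [CommRing R] (a b : R) (j : ℕ) (f : ι → ℕ) (y : ι) : R :=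
  if f y < j then b else if j < f y then a else a + b

theorem zz_eq {ι R : Type*} [CommRing R] (a b : R) (j : ℕ) (f : ι → ℕ) (y : ι) :
    ((if f y ≤ j then b else 0) + (if j ≤ f y then a else 0)) = zz a b j f y := by
  unfold zz
  rcases lt_trichotomy (f y) j with h | h | h
  · simp [h, h.le, not_le.2 h]
  · simp [h, add_comm]
  · simp [h, h.le, not_le.2 h, not_lt.2 h.le]

theorem coeff_zero_lev {R : Type*} [CommRing R] (a b : R) (j : ℕ) :
    PowerSeries.coeff 0 (lev a b j α) = ∏ y : α, zz a b j ht y := by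
  rw [lev, map_sum]
  have h0 : ∏ y : α, zz a b j ht y =
      ∏ y : α, ((if ht y ≤ j then b else 0) + (if j ≤ ht y then a else 0)) :=
    Finset.prod_congr rfl fun y _ => (zz_eq a b j ht y).symm
  rw [h0, ← sum_local a b (fun y : α => ht y ≤ j) (fun y => j ≤ ht y)]
  refine Finset.sum_congr rfl fun F _ => ?_
  rw [mul_assoc, PowerSeries.coeff_C_mul, PowerSeries.coeff_X_pow_mul']
  by_cases h : exc j F = 0
  · rw [if_pos (by omega), if_pos ((exc_zero_iff j F).1 h), h, PowerSeries.coeff_map,
      coeff_zero_red, if_pos (up_of_exc_zero h)]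
    simp
  · rw [if_neg (by omega), if_neg (fun hh => h ((exc_zero_iff j F).2 hh)), mul_zero]

theorem coeff_zero_levR {ι R : Type*} [Fintype ι] [CommRing R] (a b : R) (j : ℕ) (h : ι → ℕ) :
    PowerSeries.coeff 0 (levR a b j h) = ∏ i, zz a b j h i := by
  rw [levR, PowerSeries.coeff_zero_eq_constantCoeff_apply, map_prod]
  refine Finset.prod_congr rfl fun i _ => ?_
  rw [← zz_eq, map_add, map_mul, map_mul, map_pow, map_pow]
  simp only [PowerSeries.constantCoeff_C, PowerSeries.constantCoeff_X, zero_pow_eq,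
    Nat.sub_eq_zero_iff_le]
  split_ifs <;> simp

theorem coeff0_mul {R : Type*} [CommRing R] (A B : PowerSeries R) :
    PowerSeries.coeff 0 (A * B) = PowerSeries.coeff 0 A * PowerSeries.coeff 0 B := by
  simp only [PowerSeries.coeff_zero_eq_constantCoeff_apply, map_mul]

theorem X_pow_cancel {m m' : ℕ} {A B : PowerSeries ℤ}
    (h : (PowerSeries.X : PowerSeries ℤ) ^ m * A = PowerSeries.X ^ m' * B)
    (hA : PowerSeries.coeff 0 A ≠ 0) (hB : PowerSeries.coeff 0 B ≠ 0) : m = m' := by
  rcases lt_trichotomy m m' with hlt | heq | hgt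
  · exfalso
    have := congrArg (PowerSeries.coeff m) h
    rw [PowerSeries.coeff_X_pow_mul', if_pos le_rfl, PowerSeries.coeff_X_pow_mul',
      if_neg (by omega), Nat.sub_self] at this
    exact hA this
  · exact heq
  · exfalso
    have := congrArg (PowerSeries.coeff m') h
    rw [PowerSeries.coeff_X_pow_mul', if_neg (by omega), PowerSeries.coeff_X_pow_mul',
      if_pos le_rfl, Nat.sub_self] at this
    exact hB this.symm

theorem coeff_zero_prod_one_sub {ι R : Type*} [Fintype ι] [CommRing R] {h : ι → ℕ}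
    (hp : ∀ i, 0 < h i) :
    PowerSeries.coeff 0 (∏ i, (1 - (PowerSeries.X : PowerSeries R) ^ (h i))) = 1 := by
  rw [PowerSeries.coeff_zero_eq_constantCoeff_apply, map_prod]
  refine Finset.prod_eq_one fun i _ => ?_
  have := hp i
  simp [zero_pow_eq]
  omega

theorem sum_min {h : Fin (Fintype.card α) → ℕ} (H : GaussianWith α h) (j : ℕ) :
    ∑ x : α, min j (ht x) = ∑ i, min j (h i) := by
  refine X_pow_cancel (slope H (1 : ℤ) 1 j) ?_ ?_
  · rw [coeff0_mul, coeff_zero_prod_one_sub H.1, mul_one, coeff_zero_lev]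
    refine Finset.prod_ne_zero_iff.2 fun y _ => ?_
    unfold zz
    split_ifs <;> norm_num
  · rw [coeff_zero_levR]
    refine Finset.prod_ne_zero_iff.2 fun y _ => ?_
    unfold zz
    split_ifs <;> norm_num

theorem lev_eq {h : Fin (Fintype.card α) → ℕ} (H : GaussianWith α h)
    {R : Type*} [CommRing R] (a b : R) (j : ℕ) :
    lev a b j α * ∏ i, (1 - (PowerSeries.X : PowerSeries R) ^ (h i)) = levR a b j h := by
  have h1 := slope H a b j
  rw [sum_min H j] at h1
  ext n
  have h2 := congrArg (PowerSeries.coeff (n + ∑ i, min j (h i))) h1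
  rwa [PowerSeries.coeff_X_pow_mul, PowerSeries.coeff_X_pow_mul] at h2

theorem second_diff {κ : Type*} [Fintype κ] (g : κ → ℕ) (j : ℕ) (hj : 0 < j) :
    ∑ x, min (j + 1) (g x) + ∑ x, min (j - 1) (g x) + (univ.filter (fun x => g x = j)).card =
        2 * ∑ x, min j (g x) := by
  rw [Finset.card_filter, ← Finset.sum_add_distrib, ← Finset.sum_add_distrib, Finset.mul_sum]
  refine Finset.sum_congr rfl fun x _ => ?_
  split_ifs <;> omega

theorem card_eq_of_sum_min {ι κ : Type*} [Fintype ι] [Fintype κ] {f : ι → ℕ} {g : κ → ℕ}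
    (h : ∀ j, ∑ x, min j (f x) = ∑ i, min j (g i)) (j : ℕ) (hj : 0 < j) :
    (univ.filter (fun x => f x = j)).card = (univ.filter (fun i => g i = j)).card := by
  have h1 := second_diff f j hj
  have h2 := second_diff g j hj
  rw [h (j + 1), h (j - 1), h j] at h1
  omega

/-- The multiset of the `h i` is the multiset of the heights. -/
theorem card_ht {h : Fin (Fintype.card α) → ℕ} (H : GaussianWith α h) (j : ℕ) (hj : 0 < j) :
    (univ.filter (fun x : α => ht x = j)).card = (univ.filter (fun i => h i = j)).card :=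
  card_eq_of_sum_min (sum_min H) j hj

end Run7.h93
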