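import Mathlib
import Pool.Agent.Run7.h93.Level

set_option autoImplicit false

open Finset
open scoped Classical

namespace Run7.h93

variable {α : Type*} [Fintype α] [PartialOrder α]

/-- Elements above `x` exactly one level higher. -/
noncomputable def uset (x : α) : Finset α := univ.filter (fun y => x < y ∧ ht x = ht y + 1)

/-- Elements below `x` exactly one level lower. -/
noncomputable def dset (x : α) : Finset α := univ.filter (fun y => y < x ∧ ht y = ht x + 1)

theorem mem_uset {x y : α} : y ∈ uset x ↔ x < y ∧ ht x = ht y + 1 := by simp [uset]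

theorem mem_dset {x y : α} : y ∈ dset x ↔ y < x ∧ ht y = ht x + 1 := by simp [dset]

theorem valid_bump {F : Finset α} (hF : IsUp F) (x : α) :
    Valid 0 F (fun y => base F y + if y = x then 1 else 0) ↔
      (x ∉ F → ∀ y, x < y → y ∈ F) ∧ (x ∈ F → ∀ y ∈ F, y < x → ht y ≠ ht x + 1) := by
  constructor
  · intro hv
    refine ⟨?_, ?_⟩
    · intro hx y hxy
      by_contra hy
      have h1 := hv.mono x y hxy hx hy
      have h2 : y ≠ x := ne_of_gt hxy
      simp [base, hx, hy, h2] at h1
    · intro hx y hy hyx he
      have h1 := hv.anti y x hyx hy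
      have h2 : y ≠ x := ne_of_lt hyx
      simp [base, hx, hy, h2] at h1
      omega
  · rintro ⟨h1, h2⟩
    refine ⟨hF, ?_, ?_, ?_⟩
    · intro u v huv hu hv
      by_cases hux : u = x
      · subst hux
        exact absurd (h1 hu v huv) hv
      · simp [base, hu, hux]
    · intro u v huv hu
      have hv := hF u v huv hu
      have hlt := ht_lt huv
      simp only [base, hu, hv, if_true]
      by_cases hvx : v = x
      · subst hvx
        have h3 := h2 hv u hu huv
        have : u ≠ v := ne_of_lt huv
        simp only [if_true, this, if_false]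
        omega
      · simp only [hvx, if_false]
        omega
    · intro u hu
      have := ht_pos u
      simp only [base, hu, if_true]
      omega

theorem valid_bump' {j : ℕ} {F : Finset α} (h0 : exc j F = 0) (x : α) :
    Valid 0 F (fun y => base F y + if y = x then 1 else 0) ↔
      (x ∈ F ∧ ∀ y ∈ F, y ∉ dset x) ∨ (x ∉ F ∧ ∀ y ∈ Fᶜ, y ∉ uset x) := by
  rw [valid_bump (up_of_exc_zero h0)]
  have hz := (exc_zero_iff j F).1 h0
  by_cases hx : x ∈ F
  · simp only [hx, not_true, false_implies, true_and, true_implies, false_and, or_false]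
    constructor
    · intro h y hy hd
      rw [mem_dset] at hd
      exact h y hy hd.1 hd.2
    · intro h y hy hlt he
      exact h y hy (mem_dset.2 ⟨hlt, he⟩)
  · simp only [hx, not_false_eq_true, true_implies, false_implies, and_true, false_and, true_and,
      false_or]
    constructor
    · intro h y hy hu
      rw [mem_uset] at hu
      exact (Finset.mem_compl.1 hy) (h y hu.1)
    · intro h y hxy
      by_contra hy
      have hjy := hz.2 y (Finset.mem_compl.2 hy)
      have hlt := ht_lt hxy
      have hyp := ht_pos y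
      obtain ⟨v, hv, hxv⟩ := ht_step x (by omega)
      have hvF : v ∈ F := by
        by_contra hvF
        exact h v (Finset.mem_compl.2 hvF) (mem_uset.2 ⟨hv, hxv⟩)
      have hvj := hz.1 v hvF
      exact h y (Finset.mem_compl.2 hy) (mem_uset.2 ⟨hxy, by omega⟩)

theorem prodeval {ι R : Type*} [Fintype ι] [CommRing R] (f z : ι → R) (x : ι) (s t r : R)
    (T : Finset ι)
    (h : ∀ y, f y * (if y = x then s else 1) =
      z y * (if y = x then t else 1) * (if y ∈ T then r else 1)) :
    (∏ y, f y) * s = (∏ y, z y) * t * r ^ T.card := by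
  have h1 : ∏ y, (f y * (if y = x then s else 1)) = (∏ y, f y) * s := by
    rw [Finset.prod_mul_distrib, Finset.prod_ite_eq']
    simp
  have h2 : ∏ y, (z y * (if y = x then t else 1) * (if y ∈ T then r else 1)) =
      (∏ y, z y) * t * r ^ T.card := by
    rw [Finset.prod_mul_distrib, Finset.prod_mul_distrib, Finset.prod_ite_eq',
      Finset.prod_ite_mem]
    simp
  rw [← h1, ← h2]
  exact Finset.prod_congr rfl fun y _ => h y

section weights

variable {R : Type*} [CommRing R] (a b : R) (j : ℕ)

/-- total weight of the sets of type zero containing `x` and avoiding `dset x` -/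
noncomputable def c1 (x : α) : R :=
  ∏ y : α, ((if (ht y ≤ j ∧ y ∉ dset x) then b else 0) + (if (j ≤ ht y ∧ y ≠ x) then a else 0))

noncomputable def c2 (x : α) : R :=
  ∏ y : α, ((if (ht y ≤ j ∧ y ≠ x) then b else 0) + (if (j ≤ ht y ∧ y ∉ uset x) then a else 0))

noncomputable def c3 (x : α) : R :=
  ∏ y : α, ((if (y = x ∨ ht y ≤ j) then b else 0) +
    (if (y ≠ x ∧ j ≤ ht y ∧ y ∉ uset x) then a else 0))

noncomputable def c4 (x : α) : R :=
  ∏ y : α, ((if (y ≠ x ∧ ht y ≤ j ∧ y ∉ dset x) then b else 0) +
    (if (y = x ∨ j ≤ ht y) then a else 0))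

variable {a b} (hab : a + b = 1)
include hab

theorem c1_eq (x : α) (hx : ht x = j) :
    c1 a b j x = (∏ y : α, zz a b j ht y) * b := by
  have := prodeval (fun y : α => ((if (ht y ≤ j ∧ y ∉ dset x) then b else 0) +
    (if (j ≤ ht y ∧ y ≠ x) then a else 0))) (zz a b j ht) x 1 b 1 ∅ ?_
  · simpa [c1] using this
  · intro y
    simp only [mem_dset, zz]
    by_cases hyx : y = x
    · subst hyx
      simp [hx, hab]
    · rcases lt_trichotomy (ht y) j with h | h | h
      · have h1 : ht y ≠ ht x + 1 := by omega
        simp [hyx, h, h.le, not_le.2 h, h1]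
      · have h1 : ht y ≠ ht x + 1 := by omega
        rw [if_pos ⟨h.le, fun hh => h1 hh.2⟩, if_pos ⟨h.ge, hyx⟩]
        simp [hyx, h, add_comm b a]
      · simp [hyx, h, h.le, not_le.2 h, not_lt.2 h.le]

theorem c1_eq' (x : α) (hx : ht x + 1 = j) :
    c1 a b j x = (∏ y : α, zz a b j ht y) * a ^ (dset x).card := by
  have := prodeval (fun y : α => ((if (ht y ≤ j ∧ y ∉ dset x) then b else 0) +
    (if (j ≤ ht y ∧ y ≠ x) then a else 0))) (zz a b j ht) x 1 1 a (dset x) ?_
  · simpa [c1] using this
  · intro y
    simp only [mem_dset, zz]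
    by_cases hyx : y = x
    · subst hyx
      have h1 : ht y < j := by omega
      simp [h1, h1.le]
    · rcases lt_trichotomy (ht y) j with h | h | h
      · have h1 : ht y ≠ ht x + 1 := by omega
        simp [hyx, h, h.le, not_le.2 h, h1]
      · have h1 : ht y = ht x + 1 := by omega
        by_cases hlt : y < x
        · simp [hyx, h, hx, hlt, hab]
        · simp [hyx, h, hx, hlt, hab, add_comm b a]
      · have h1 : ht y ≠ ht x + 1 := by omega
        simp [hyx, h, h.le, not_le.2 h, not_lt.2 h.le, h1]

theorem c1_low (x : α) (hx : ht x + 1 < j) :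
    c1 a b j x = if (dset x).card = 0 then ∏ y : α, zz a b j ht y else 0 := by
  by_cases hd : (dset x).card = 0
  · rw [if_pos hd]
    rw [Finset.card_eq_zero] at hd
    have := prodeval (fun y : α => ((if (ht y ≤ j ∧ y ∉ dset x) then b else 0) +
      (if (j ≤ ht y ∧ y ≠ x) then a else 0))) (zz a b j ht) x 1 1 1 ∅ ?_
    · simpa [c1] using this
    · intro y
      rw [hd]
      simp only [zz]
      by_cases hyx : y = x
      · subst hyx
        have h1 : ht y < j := by omega
        simp [h1, h1.le]
      · rcases lt_trichotomy (ht y) j with h | h | h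
        · simp [hyx, h, h.le, not_le.2 h]
        · simp [hyx, h, hab, add_comm b a]
        · simp [hyx, h, h.le, not_le.2 h, not_lt.2 h.le]
  · rw [if_neg hd]
    obtain ⟨y, hy⟩ := Finset.card_pos.1 (Nat.pos_of_ne_zero hd)
    refine Finset.prod_eq_zero (Finset.mem_univ y) ?_
    have h1 := (mem_dset.1 hy).2
    have h2 : ¬ (j ≤ ht y) := by omega
    simp [hy, h2]

omit hab in
theorem c1_high (x : α) (hx : j < ht x) : c1 a b j x = 0 := by
  refine Finset.prod_eq_zero (Finset.mem_univ x) ?_
  simp [not_le.2 hx]

theorem c2_eq (x : α) (hx : ht x = j) :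
    c2 a b j x = (∏ y : α, zz a b j ht y) * a := by
  have := prodeval (fun y : α => ((if (ht y ≤ j ∧ y ≠ x) then b else 0) +
    (if (j ≤ ht y ∧ y ∉ uset x) then a else 0))) (zz a b j ht) x 1 a 1 ∅ ?_
  · simpa [c2] using this
  · intro y
    simp only [mem_uset, zz]
    by_cases hyx : y = x
    · subst hyx
      simp [hx, hab]
    · rcases lt_trichotomy (ht y) j with h | h | h
      · simp [hyx, h, h.le, not_le.2 h]
      · have h1 : ht x ≠ ht y + 1 := by omega
        simp [hyx, h, hx, hab, add_comm b a]
      · have h1 : ht x ≠ ht y + 1 := by omega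
        simp [hyx, h, h.le, not_le.2 h, not_lt.2 h.le, h1]

theorem c2_eq' (x : α) (hx : ht x = j + 1) :
    c2 a b j x = (∏ y : α, zz a b j ht y) * b ^ (uset x).card := by
  have := prodeval (fun y : α => ((if (ht y ≤ j ∧ y ≠ x) then b else 0) +
    (if (j ≤ ht y ∧ y ∉ uset x) then a else 0))) (zz a b j ht) x 1 1 b (uset x) ?_
  · simpa [c2] using this
  · intro y
    simp only [mem_uset, zz]
    by_cases hyx : y = x
    · subst hyx
      have h1 : j < ht y := by omega
      simp [h1, h1.le, not_lt.2 h1.le, not_le.2 h1]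
    · rcases lt_trichotomy (ht y) j with h | h | h
      · have h1 : ht x ≠ ht y + 1 := by omega
        simp [hyx, h, h.le, not_le.2 h, h1]
      · have h1 : ht x = ht y + 1 := by omega
        by_cases hlt : x < y
        · simp [hyx, h, hx, hlt, hab]
        · simp [hyx, h, hx, hlt, hab, add_comm b a]
      · have h1 : ht x ≠ ht y + 1 := by omega
        simp [hyx, h, h.le, not_le.2 h, not_lt.2 h.le, h1]

omit hab in
theorem c2_low (x : α) (hx : ht x < j) : c2 a b j x = 0 := by
  refine Finset.prod_eq_zero (Finset.mem_univ x) ?_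
  simp [not_le.2 hx]

omit hab in
theorem c2_high (x : α) (hx : j + 1 < ht x) : c2 a b j x = 0 := by
  obtain ⟨y, hy, hxy⟩ := ht_step x (by omega)
  refine Finset.prod_eq_zero (Finset.mem_univ y) ?_
  have h1 : ¬ (ht y ≤ j) := by omega
  have h2 : y ∈ uset x := mem_uset.2 ⟨hy, hxy⟩
  simp [h1, h2]

theorem c3_eq (x : α) (hx : ht x = j + 1) :
    c3 a b j x * a = (∏ y : α, zz a b j ht y) * b * b ^ (uset x).card := by
  refine prodeval (fun y : α => ((if (y = x ∨ ht y ≤ j) then b else 0) +
    (if (y ≠ x ∧ j ≤ ht y ∧ y ∉ uset x) then a else 0))) (zz a b j ht) x a b b (uset x) ?_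
  intro y
  simp only [mem_uset, zz]
  by_cases hyx : y = x
  · subst hyx
    have h1 : j < ht y := by omega
    simp [h1, not_lt.2 h1.le, mul_comm]
  · rcases lt_trichotomy (ht y) j with h | h | h
    · have h1 : ht x ≠ ht y + 1 := by omega
      simp [hyx, h, h.le, not_le.2 h, h1]
    · have h1 : ht x = ht y + 1 := by omega
      by_cases hlt : x < y
      · simp [hyx, h, hx, hlt, hab]
      · simp [hyx, h, hx, hlt, hab, add_comm b a]
    · have h1 : ht x ≠ ht y + 1 := by omega
      simp [hyx, h, h.le, not_le.2 h, not_lt.2 h.le, h1]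

theorem c4_eq (x : α) (hx : ht x + 1 = j) :
    c4 a b j x * b = (∏ y : α, zz a b j ht y) * a * a ^ (dset x).card := by
  refine prodeval (fun y : α => ((if (y ≠ x ∧ ht y ≤ j ∧ y ∉ dset x) then b else 0) +
    (if (y = x ∨ j ≤ ht y) then a else 0))) (zz a b j ht) x b a a (dset x) ?_
  intro y
  simp only [mem_dset, zz]
  by_cases hyx : y = x
  · subst hyx
    have h1 : ht y < j := by omega
    simp [h1, mul_comm]
  · rcases lt_trichotomy (ht y) j with h | h | h
    · have h1 : ht y ≠ ht x + 1 := by omega
      simp [hyx, h, h.le, not_le.2 h, h1]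
    · have h1 : ht y = ht x + 1 := by omega
      by_cases hlt : y < x
      · simp [hyx, h, hx, hlt, hab]
      · simp [hyx, h, hx, hlt, hab, add_comm b a]
    · have h1 : ht y ≠ ht x + 1 := by omega
      simp [hyx, h, h.le, not_le.2 h, not_lt.2 h.le, h1]

end weights

end Run7.h93
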