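import Mathlib
import Pool.Agent.Run7.h93.First

set_option autoImplicit false

open Finset
open scoped Classical

namespace Run7.h93

variable {α : Type*} [Fintype α] [PartialOrder α]

theorem coeff1_mul {R : Type*} [CommRing R] (A B : PowerSeries R) :
    PowerSeries.coeff 1 (A * B) = PowerSeries.coeff 0 A * PowerSeries.coeff 1 B +
      PowerSeries.coeff 1 A * PowerSeries.coeff 0 B := by
  rw [PowerSeries.coeff_mul, Finset.Nat.antidiagonal_succ]
  simp

theorem coeff1_prod {ι R : Type*} [CommRing R] (s : Finset ι) (f : ι → PowerSeries R) :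
    PowerSeries.coeff 1 (∏ i ∈ s, f i) =
      ∑ i ∈ s, PowerSeries.coeff 1 (f i) * ∏ k ∈ s.erase i, PowerSeries.coeff 0 (f k) := by
  induction s using Finset.induction_on with
  | empty => simp [PowerSeries.coeff_one]
  | insert x s hx ih =>
    have h0 : PowerSeries.coeff 0 (∏ i ∈ s, f i) = ∏ k ∈ s, PowerSeries.coeff 0 (f k) := by
      simp only [PowerSeries.coeff_zero_eq_constantCoeff_apply, map_prod]
    rw [Finset.prod_insert hx, coeff1_mul, ih, h0, Finset.sum_insert hx, Finset.erase_insert hx,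
      add_comm, Finset.mul_sum]
    congr 1
    refine Finset.sum_congr rfl fun i hi => ?_
    have hix : i ≠ x := fun h => hx (h ▸ hi)
    rw [Finset.erase_insert_of_ne hix.symm, Finset.prod_insert]
    · ring
    · simp [hx]

omit [PartialOrder α] in
theorem count_one (e : α → ℕ) :
    (∑ x, if (e x = 1 ∧ ∀ y, y ≠ x → e y = 0) then 1 else 0) =
      if ∑ x, e x = 1 then 1 else 0 := by
  split_ifs with h
  · obtain ⟨x, hx⟩ : ∃ x, e x ≠ 0 := by
      by_contra hcon
      push Not at hcon
      rw [Finset.sum_eq_zero (fun y _ => hcon y)] at h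
      omega
    have hrest : ∀ y, y ≠ x → e y = 0 := by
      intro y hy
      have h2 : ∑ z ∈ {x, y}, e z ≤ ∑ z, e z :=
        Finset.sum_le_sum_of_subset (Finset.subset_univ _)
      rw [Finset.sum_pair (Ne.symm hy)] at h2
      omega
    have hx1 : e x = 1 := by
      rw [Finset.sum_eq_single x (fun y _ hy => hrest y hy) (by simp)] at h
      exact h
    rw [Finset.sum_eq_single x, if_pos ⟨hx1, hrest⟩]
    · intro y _ hy
      rw [if_neg]
      rintro ⟨hy1, -⟩
      have := hrest y hy
      omega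
    · simp
  · refine Finset.sum_eq_zero fun x _ => ?_
    rw [if_neg]
    rintro ⟨h1, h2⟩
    apply h
    rw [Finset.sum_eq_single x (fun y _ hy => h2 y hy) (by simp), h1]

/-- The element `x` is the only defect of `F`, the defect is one, and `F` is an up-set. -/
def Defect (j : ℕ) (F : Finset α) (x : α) : Prop :=
  (((if x ∈ F then ht x - j else j - ht x) = 1) ∧
    ∀ y, y ≠ x → (if y ∈ F then ht y - j else j - ht y) = 0) ∧ IsUp F

theorem defect_iff (j : ℕ) (F : Finset α) (x : α) :
    Defect j F x ↔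
      ((ht x = j + 1 ∧ (∀ y ∈ F, (y = x ∨ ht y ≤ j)) ∧
        (∀ y ∈ Fᶜ, (y ≠ x ∧ j ≤ ht y ∧ y ∉ uset x))) ∨
      (ht x + 1 = j ∧ (∀ y ∈ F, (y ≠ x ∧ ht y ≤ j ∧ y ∉ dset x)) ∧
        (∀ y ∈ Fᶜ, (y = x ∨ j ≤ ht y)))) := by
  constructor
  · rintro ⟨⟨h1, h2⟩, hup⟩
    by_cases hx : x ∈ F
    · left
      rw [if_pos hx] at h1
      refine ⟨by omega, ?_, ?_⟩
      · intro y hy
        by_cases hyx : y = x
        · exact Or.inl hyx
        · right
          have := h2 y hyx
          rw [if_pos hy] at this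
          omega
      · intro y hy
        rw [Finset.mem_compl] at hy
        have hyx : y ≠ x := fun h => hy (h ▸ hx)
        have := h2 y hyx
        rw [if_neg hy] at this
        refine ⟨hyx, by omega, ?_⟩
        intro hu
        exact hy (hup x y (mem_uset.1 hu).1 hx)
    · right
      rw [if_neg hx] at h1
      refine ⟨by omega, ?_, ?_⟩
      · intro y hy
        have hyx : y ≠ x := fun h => hx (h ▸ hy)
        have := h2 y hyx
        rw [if_pos hy] at this
        refine ⟨hyx, by omega, ?_⟩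
        intro hd
        exact hx (hup y x (mem_dset.1 hd).1 hy)
      · intro y hy
        rw [Finset.mem_compl] at hy
        by_cases hyx : y = x
        · exact Or.inl hyx
        · right
          have := h2 y hyx
          rw [if_neg hy] at this
          omega
  · rintro (⟨hx, h1, h2⟩ | ⟨hx, h1, h2⟩)
    · have hxF : x ∈ F := by
        by_contra hxF
        exact (h2 x (Finset.mem_compl.2 hxF)).1 rfl
      refine ⟨⟨by rw [if_pos hxF]; omega, ?_⟩, ?_⟩
      · intro y hyx
        split_ifs with hy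
        · rcases h1 y hy with h | h
          · exact absurd h hyx
          · omega
        · have := (h2 y (Finset.mem_compl.2 hy)).2.1
          omega
      · intro u v huv hu
        by_contra hv
        have h3 := h2 v (Finset.mem_compl.2 hv)
        have hlt := ht_lt huv
        rcases h1 u hu with h | h
        · subst h
          exact h3.2.2 (mem_uset.2 ⟨huv, by omega⟩)
        · omega
    · have hxF : x ∉ F := by
        intro hxF
        exact (h1 x hxF).1 rfl
      refine ⟨⟨by rw [if_neg hxF]; omega, ?_⟩, ?_⟩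
      · intro y hyx
        split_ifs with hy
        · have := (h1 y hy).2.1
          omega
        · rcases h2 y (Finset.mem_compl.2 hy) with h | h
          · exact absurd h hyx
          · omega
      · intro u v huv hu
        by_contra hv
        have h3 := h1 u hu
        have hlt := ht_lt huv
        rcases h2 v (Finset.mem_compl.2 hv) with h | h
        · subst h
          exact h3.2.2 (mem_dset.2 ⟨huv, by omega⟩)
        · omega

theorem coeff_one_lev {R : Type*} [CommRing R] (a b : R) (j : ℕ) :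
    PowerSeries.coeff 1 (lev a b j α) = ∑ x : α, (c1 a b j x + c2 a b j x +
      ((if ht x = j + 1 then c3 a b j x else 0) + (if ht x + 1 = j then c4 a b j x else 0))) := by
  -- the summand of `lev` for `F`
  have hF : ∀ F : Finset α, PowerSeries.coeff 1 (PowerSeries.C (b ^ F.card * a ^ Fᶜ.card) *
      (PowerSeries.X : PowerSeries R) ^ (exc j F) *
        PowerSeries.map (Int.castRingHom R) (red F)) =
      ∑ x : α, ((if ((∀ y ∈ F, (ht y ≤ j ∧ y ∉ dset x)) ∧ (∀ y ∈ Fᶜ, (j ≤ ht y ∧ y ≠ x)))
        then b ^ F.card * a ^ Fᶜ.card else 0) +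
        (if ((∀ y ∈ F, (ht y ≤ j ∧ y ≠ x)) ∧ (∀ y ∈ Fᶜ, (j ≤ ht y ∧ y ∉ uset x)))
        then b ^ F.card * a ^ Fᶜ.card else 0) +
        ((if ht x = j + 1 then (if ((∀ y ∈ F, (y = x ∨ ht y ≤ j)) ∧
        (∀ y ∈ Fᶜ, (y ≠ x ∧ j ≤ ht y ∧ y ∉ uset x))) then b ^ F.card * a ^ Fᶜ.card else 0)
          else 0) +
        (if ht x + 1 = j then (if ((∀ y ∈ F, (y ≠ x ∧ ht y ≤ j ∧ y ∉ dset x)) ∧
        (∀ y ∈ Fᶜ, (y = x ∨ j ≤ ht y))) then b ^ F.card * a ^ Fᶜ.card else 0) else 0))) := by
    intro F
    rw [Finset.sum_add_distrib]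
    have hD : ∑ x : α, ((if ht x = j + 1 then (if ((∀ y ∈ F, (y = x ∨ ht y ≤ j)) ∧
        (∀ y ∈ Fᶜ, (y ≠ x ∧ j ≤ ht y ∧ y ∉ uset x))) then b ^ F.card * a ^ Fᶜ.card else 0)
          else 0) +
        (if ht x + 1 = j then (if ((∀ y ∈ F, (y ≠ x ∧ ht y ≤ j ∧ y ∉ dset x)) ∧
        (∀ y ∈ Fᶜ, (y = x ∨ j ≤ ht y))) then b ^ F.card * a ^ Fᶜ.card else 0) else 0)) =
        if (exc j F = 1 ∧ IsUp F) then b ^ F.card * a ^ Fᶜ.card else 0 := by
      have h1 : ∀ x : α, ((if ht x = j + 1 then (if ((∀ y ∈ F, (y = x ∨ ht y ≤ j)) ∧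
        (∀ y ∈ Fᶜ, (y ≠ x ∧ j ≤ ht y ∧ y ∉ uset x))) then b ^ F.card * a ^ Fᶜ.card else 0)
          else 0) +
        (if ht x + 1 = j then (if ((∀ y ∈ F, (y ≠ x ∧ ht y ≤ j ∧ y ∉ dset x)) ∧
        (∀ y ∈ Fᶜ, (y = x ∨ j ≤ ht y))) then b ^ F.card * a ^ Fᶜ.card else 0) else 0)) =
        if Defect j F x then b ^ F.card * a ^ Fᶜ.card else 0 := by
        intro x
        have hiff := defect_iff j F x
        by_cases hx1 : ht x = j + 1
        · have hx2 : ht x + 1 ≠ j := by omega
          rw [if_pos hx1, if_neg hx2, add_zero]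
          refine if_congr ?_ rfl rfl
          rw [hiff]
          constructor
          · exact fun h => Or.inl ⟨hx1, h⟩
          · rintro (h | h)
            · exact h.2
            · exact absurd h.1 hx2
        · rw [if_neg hx1, zero_add]
          by_cases hx2 : ht x + 1 = j
          · rw [if_pos hx2]
            refine if_congr ?_ rfl rfl
            rw [hiff]
            constructor
            · exact fun h => Or.inr ⟨hx2, h⟩
            · rintro (h | h)
              · exact absurd h.1 hx1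
              · exact h.2
          · rw [if_neg hx2, if_neg]
            rw [hiff]
            rintro (h | h)
            · exact hx1 h.1
            · exact hx2 h.1
      rw [Finset.sum_congr rfl (fun x _ => h1 x)]
      by_cases hup : IsUp F
      · have h2 := count_one (fun x : α => if x ∈ F then ht x - j else j - ht x)
        rw [← exc_eq] at h2
        have h3 : ∀ x : α, (if Defect j F x then b ^ F.card * a ^ Fᶜ.card else 0) =
            b ^ F.card * a ^ Fᶜ.card * (((if (((if x ∈ F then ht x - j else j - ht x) = 1) ∧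
              ∀ y, y ≠ x → (if y ∈ F then ht y - j else j - ht y) = 0) then 1 else 0) : ℕ) : R) := by
          intro x
          by_cases hx : Defect j F x
          · rw [if_pos hx, if_pos hx.1]; simp
          · rw [if_neg hx, if_neg (fun h => hx ⟨h, hup⟩)]; simp
        rw [Finset.sum_congr rfl (fun x _ => h3 x), ← Finset.mul_sum, ← Nat.cast_sum, h2]
        by_cases he : exc j F = 1
        · rw [if_pos he, if_pos ⟨he, hup⟩]; simp
        · rw [if_neg he, if_neg (fun h => he h.1)]; simp
      · rw [if_neg (fun h => hup h.2)]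
        exact Finset.sum_eq_zero fun x _ => if_neg (fun h => hup h.2)
    rw [hD]
    have h12 : ∑ x : α, ((if ((∀ y ∈ F, (ht y ≤ j ∧ y ∉ dset x)) ∧
        (∀ y ∈ Fᶜ, (j ≤ ht y ∧ y ≠ x))) then b ^ F.card * a ^ Fᶜ.card else 0) +
        (if ((∀ y ∈ F, (ht y ≤ j ∧ y ≠ x)) ∧ (∀ y ∈ Fᶜ, (j ≤ ht y ∧ y ∉ uset x)))
        then b ^ F.card * a ^ Fᶜ.card else 0)) =
        if exc j F = 0 then b ^ F.card * a ^ Fᶜ.card *
          ((((univ : Finset α).filter
          (fun x => Valid 0 F (fun y => base F y + if y = x then 1 else 0))).card : ℕ) : R)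
          else 0 := by
      by_cases h0 : exc j F = 0
      · rw [if_pos h0, Finset.card_filter, Nat.cast_sum, Finset.mul_sum]
        have hz := (exc_zero_iff j F).1 h0
        refine Finset.sum_congr rfl fun x _ => ?_
        have hvb := valid_bump' h0 x
        by_cases hx : x ∈ F
        · have hn2 : ¬ ((∀ y ∈ F, (ht y ≤ j ∧ y ≠ x)) ∧ (∀ y ∈ Fᶜ, (j ≤ ht y ∧ y ∉ uset x))) :=
            fun h => (h.1 x hx).2 rfl
          rw [if_neg hn2, add_zero]
          by_cases hc : ∀ y ∈ F, y ∉ dset x
          · rw [if_pos, if_pos (hvb.2 (Or.inl ⟨hx, hc⟩))]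
            · simp
            · exact ⟨fun y hy => ⟨hz.1 y hy, hc y hy⟩, fun y hy => ⟨hz.2 y hy, fun h =>
                (Finset.mem_compl.1 hy) (h ▸ hx)⟩⟩
          · rw [if_neg (fun h => hc (fun y hy => (h.1 y hy).2)), if_neg]
            · simp
            · rw [hvb]
              rintro (h | h)
              · exact hc h.2
              · exact h.1 hx
        · have hn1 : ¬ ((∀ y ∈ F, (ht y ≤ j ∧ y ∉ dset x)) ∧ (∀ y ∈ Fᶜ, (j ≤ ht y ∧ y ≠ x))) :=
            fun h => (h.2 x (Finset.mem_compl.2 hx)).2 rfl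
          rw [if_neg hn1, zero_add]
          by_cases hc : ∀ y ∈ Fᶜ, y ∉ uset x
          · rw [if_pos, if_pos (hvb.2 (Or.inr ⟨hx, hc⟩))]
            · simp
            · exact ⟨fun y hy => ⟨hz.1 y hy, fun h => hx (h ▸ hy)⟩,
                fun y hy => ⟨hz.2 y hy, hc y hy⟩⟩
          · rw [if_neg (fun h => hc (fun y hy => (h.2 y hy).2)), if_neg]
            · simp
            · rw [hvb]
              rintro (h | h)
              · exact hx h.1
              · exact hc h.2
      · rw [if_neg h0]
        refine Finset.sum_eq_zero fun x _ => ?_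
        rw [if_neg, if_neg, add_zero]
        · intro h
          exact h0 ((exc_zero_iff j F).2 ⟨fun y hy => (h.1 y hy).1, fun y hy => (h.2 y hy).1⟩)
        · intro h
          exact h0 ((exc_zero_iff j F).2 ⟨fun y hy => (h.1 y hy).1, fun y hy => (h.2 y hy).1⟩)
    rw [h12, mul_assoc, PowerSeries.coeff_C_mul, PowerSeries.coeff_X_pow_mul']
    by_cases h0 : exc j F = 0
    · rw [if_pos h0, if_pos (by omega), if_neg (by omega), h0, PowerSeries.coeff_map,
        coeff_one_red]
      simp
    · rw [if_neg h0, zero_add]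
      by_cases h1 : exc j F = 1
      · rw [if_pos (by omega), h1, PowerSeries.coeff_map, Nat.sub_self, coeff_zero_red]
        by_cases hup : IsUp F
        · rw [if_pos hup, if_pos ⟨rfl, hup⟩]; simp
        · rw [if_neg hup, if_neg (fun h => hup h.2)]; simp
      · rw [if_neg (by omega), if_neg (fun h => h1 h.1)]; simp
  rw [lev, map_sum, Finset.sum_congr rfl (fun F _ => hF F), Finset.sum_comm]
  refine Finset.sum_congr rfl fun x _ => ?_
  rw [Finset.sum_add_distrib, Finset.sum_add_distrib, Finset.sum_add_distrib]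
  rw [sum_local a b (fun y => ht y ≤ j ∧ y ∉ dset x) (fun y => j ≤ ht y ∧ y ≠ x),
    sum_local a b (fun y => ht y ≤ j ∧ y ≠ x) (fun y => j ≤ ht y ∧ y ∉ uset x)]
  have e3 : ∑ F : Finset α, (if ht x = j + 1 then (if ((∀ y ∈ F, (y = x ∨ ht y ≤ j)) ∧
        (∀ y ∈ Fᶜ, (y ≠ x ∧ j ≤ ht y ∧ y ∉ uset x))) then b ^ F.card * a ^ Fᶜ.card else 0)
          else 0) = if ht x = j + 1 then c3 a b j x else 0 := by
    by_cases hx : ht x = j + 1
    · simp only [if_pos hx]
      rw [sum_local a b (fun y => y = x ∨ ht y ≤ j) (fun y => y ≠ x ∧ j ≤ ht y ∧ y ∉ uset x)]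
      rfl
    · simp only [if_neg hx]; simp
  have e4 : ∑ F : Finset α, (if ht x + 1 = j then
      (if ((∀ y ∈ F, (y ≠ x ∧ ht y ≤ j ∧ y ∉ dset x)) ∧
        (∀ y ∈ Fᶜ, (y = x ∨ j ≤ ht y))) then b ^ F.card * a ^ Fᶜ.card else 0) else 0) =
        if ht x + 1 = j then c4 a b j x else 0 := by
    by_cases hx : ht x + 1 = j
    · simp only [if_pos hx]
      rw [sum_local a b (fun y => y ≠ x ∧ ht y ≤ j ∧ y ∉ dset x) (fun y => y = x ∨ j ≤ ht y)]
      rfl
    · simp only [if_neg hx]; simp
  rw [e3, e4]
  rfl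

end Run7.h93
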