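import Mathlib
import Pool.Agent.Run7.h93.First2

set_option autoImplicit false

open Finset
open scoped Classical

namespace Run7.h93

variable {α : Type*} [Fintype α] [PartialOrder α]

theorem coeff_one_prod_one_sub {ι R : Type*} [Fintype ι] [CommRing R] {h : ι → ℕ}
    (hp : ∀ i, 0 < h i) :
    PowerSeries.coeff 1 (∏ i, (1 - (PowerSeries.X : PowerSeries R) ^ (h i))) =
      - (((univ.filter (fun i => h i = 1)).card : ℕ) : R) := by
  rw [coeff1_prod, Finset.card_filter, Nat.cast_sum, ← Finset.sum_neg_distrib]
  refine Finset.sum_congr rfl fun i _ => ?_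
  have h0 : ∀ k, PowerSeries.coeff 0 (1 - (PowerSeries.X : PowerSeries R) ^ (h k)) = 1 := by
    intro k
    have := hp k
    rw [map_sub, PowerSeries.coeff_one, if_pos rfl, PowerSeries.coeff_X_pow, if_neg (by omega),
      sub_zero]
  rw [Finset.prod_congr rfl (fun k _ => h0 k), Finset.prod_const_one, mul_one]
  simp only [map_sub, PowerSeries.coeff_one, PowerSeries.coeff_X_pow]
  by_cases hi : h i = 1
  · simp [hi]
  · rw [if_neg (by omega), if_neg (by omega), if_neg hi]; simp

theorem coeff_one_levR {ι R : Type*} [Fintype ι] [CommRing R] {a b : R} (j : ℕ) (h : ι → ℕ) :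
    a * b * PowerSeries.coeff 1 (levR a b j h) =
      (∏ i, zz a b j h i) *
        ∑ i, ((if h i = j + 1 then b ^ 2 else 0) + (if h i + 1 = j then a ^ 2 else 0)) := by
  rw [levR, coeff1_prod, Finset.mul_sum, Finset.mul_sum]
  refine Finset.sum_congr rfl fun i _ => ?_
  have h0 : ∀ k, PowerSeries.coeff 0 (PowerSeries.C b * (PowerSeries.X : PowerSeries R) ^ (h k - j) +
      PowerSeries.C a * (PowerSeries.X : PowerSeries R) ^ (j - h k)) = zz a b j h k := by
    intro k
    rw [← zz_eq, map_add, PowerSeries.coeff_C_mul, PowerSeries.coeff_C_mul,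
      PowerSeries.coeff_X_pow, PowerSeries.coeff_X_pow]
    congr 1
    · by_cases hk : h k ≤ j
      · rw [if_pos (by omega), if_pos hk, mul_one]
      · rw [if_neg (by omega), if_neg hk, mul_zero]
    · by_cases hk : j ≤ h k
      · rw [if_pos (by omega), if_pos hk, mul_one]
      · rw [if_neg (by omega), if_neg hk, mul_zero]
  rw [Finset.prod_congr rfl (fun k _ => h0 k), ← Finset.mul_prod_erase univ _ (Finset.mem_univ i),
    map_add, PowerSeries.coeff_C_mul, PowerSeries.coeff_C_mul, PowerSeries.coeff_X_pow,
    PowerSeries.coeff_X_pow]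
  unfold zz
  by_cases h1 : h i = j + 1
  · have e1 : ¬ (h i < j) := by omega
    have e2 : j < h i := by omega
    have e3 : h i + 1 ≠ j := by omega
    have e4 : 1 = h i - j := by omega
    have e5 : ¬ (1 = j - h i) := by omega
    rw [if_pos e4, if_neg e5, if_neg e1, if_pos e2, if_pos h1, if_neg e3]
    ring
  · by_cases h2 : h i + 1 = j
    · have e1 : h i < j := by omega
      have e4 : ¬ (1 = h i - j) := by omega
      have e5 : 1 = j - h i := by omega
      rw [if_neg e4, if_pos e5, if_pos e1, if_neg h1, if_pos h2]
      ring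
    · have e4 : ¬ (1 = h i - j) := by omega
      have e5 : ¬ (1 = j - h i) := by omega
      rw [if_neg e4, if_neg e5, if_neg h1, if_neg h2]
      ring

theorem lev_term {R : Type*} [CommRing R] {a b : R} (hab : a + b = 1) (j : ℕ) (x : α) :
    a * b * (c1 a b j x + c2 a b j x +
      ((if ht x = j + 1 then c3 a b j x else 0) + (if ht x + 1 = j then c4 a b j x else 0))) =
    (∏ y : α, zz a b j ht y) * ((if ht x = j then a * b else 0) +
      (if ht x + 1 = j then a ^ ((dset x).card + 1) else 0) +
      (if (ht x + 1 < j ∧ (dset x).card = 0) then a * b else 0) +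
      (if ht x = j + 1 then b ^ ((uset x).card + 1) else 0)) := by
  by_cases h1 : ht x = j
  · rw [c1_eq j hab x h1, c2_eq j hab x h1, if_neg (by omega), if_neg (by omega), if_pos h1,
      if_neg (by omega), if_neg (by omega), if_neg (by omega)]
    have : a * b * ((∏ y : α, zz a b j ht y) * b + (∏ y : α, zz a b j ht y) * a + (0 + 0)) =
      (∏ y : α, zz a b j ht y) * (a * b) * (a + b) := by ring
    rw [this, hab]; ring
  · by_cases h2 : ht x + 1 = j
    · rw [c1_eq' j hab x h2, c2_low j x (by omega), if_neg (by omega), if_pos h2, if_neg h1,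
        if_pos h2, if_neg (by omega), if_neg (by omega)]
      have h4 := c4_eq j hab x h2
      have : a * b * ((∏ y : α, zz a b j ht y) * a ^ (dset x).card + 0 + (0 + c4 a b j x)) =
        (∏ y : α, zz a b j ht y) * a ^ (dset x).card * (a * b) + a * (c4 a b j x * b) := by ring
      rw [this, h4]
      have : (∏ y : α, zz a b j ht y) * a ^ (dset x).card * (a * b) +
          a * ((∏ y : α, zz a b j ht y) * a * a ^ (dset x).card) =
          (∏ y : α, zz a b j ht y) * (a * a ^ (dset x).card) * (a + b) := by ring
      rw [this, hab]; ring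
    · by_cases h3 : ht x = j + 1
      · rw [c1_high j x (by omega), c2_eq' j hab x h3, if_pos h3, if_neg h2, if_neg h1, if_neg h2,
          if_neg (by omega), if_pos h3]
        have h4 := c3_eq j hab x h3
        have : a * b * (0 + (∏ y : α, zz a b j ht y) * b ^ (uset x).card +
          (c3 a b j x + 0)) =
          (∏ y : α, zz a b j ht y) * b ^ (uset x).card * (a * b) + b * (c3 a b j x * a) := by ring
        rw [this, h4]
        have : (∏ y : α, zz a b j ht y) * b ^ (uset x).card * (a * b) +
            b * ((∏ y : α, zz a b j ht y) * b * b ^ (uset x).card) =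
            (∏ y : α, zz a b j ht y) * (b * b ^ (uset x).card) * (a + b) := by ring
        rw [this, hab]; ring
      · by_cases h4 : ht x + 1 < j
        · rw [c1_low j hab x h4, c2_low j x (by omega), if_neg h3, if_neg h2, if_neg h1,
            if_neg h2, if_neg h3]
          by_cases hd : (dset x).card = 0
          · rw [if_pos hd, if_pos ⟨h4, hd⟩]; ring
          · rw [if_neg hd, if_neg (fun h => hd h.2)]; ring
        · rw [c1_high j x (by omega), c2_high j x (by omega), if_neg h3, if_neg h2, if_neg h1,
            if_neg h2, if_neg (by omega), if_neg h3]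
          ring

/-- The first order identity at level `j`. -/
theorem first_order {h : Fin (Fintype.card α) → ℕ} (H : GaussianWith α h)
    {R : Type*} [CommRing R] {a b : R} (hab : a + b = 1) (j : ℕ) (hj : 0 < j) :
    (∏ y : α, zz a b j ht y) * ((∑ x : α, ((if ht x = j then a * b else 0) +
      (if ht x + 1 = j then (a ^ ((dset x).card + 1) - a ^ 2) else 0) +
      (if (ht x + 1 < j ∧ (dset x).card = 0) then a * b else 0) +
      (if ht x = j + 1 then (b ^ ((uset x).card + 1) - b ^ 2) else 0) -
      (if ht x = 1 then a * b else 0)))) = 0 := by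
  have hl := lev_eq H a b j
  have h0 := congrArg (PowerSeries.coeff 0) hl
  rw [coeff0_mul, coeff_zero_prod_one_sub H.1, mul_one, coeff_zero_lev, coeff_zero_levR] at h0
  have h1 := congrArg (PowerSeries.coeff 1) hl
  rw [coeff1_mul, coeff_one_prod_one_sub H.1, coeff_zero_prod_one_sub H.1, mul_one,
    coeff_zero_lev, ← card_ht H 1 one_pos] at h1
  have h2 := congrArg (fun t => a * b * t) h1
  simp only [mul_add] at h2
  rw [coeff_one_levR, ← h0, coeff_one_lev, Finset.mul_sum,
    Finset.sum_congr rfl (fun x _ => lev_term hab j x), ← Finset.mul_sum] at h2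
  -- transport the sum over `Fin` to heights
  have e1 : ∑ i, ((if h i = j + 1 then b ^ 2 else 0) + (if h i + 1 = j then a ^ 2 else 0)) =
      ∑ x : α, ((if ht x = j + 1 then b ^ 2 else 0) + (if ht x + 1 = j then a ^ 2 else 0)) := by
    rw [Finset.sum_add_distrib, Finset.sum_add_distrib, ← Finset.sum_filter, ← Finset.sum_filter,
      ← Finset.sum_filter, ← Finset.sum_filter, Finset.sum_const, Finset.sum_const,
      Finset.sum_const, Finset.sum_const, card_ht H (j + 1) (by omega)]
    congr 2
    by_cases hj1 : j = 1
    · subst hj1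
      have e3 : (univ.filter (fun i => h i + 1 = 1)) = ∅ := by
        rw [Finset.filter_eq_empty_iff]
        intro i _
        have := H.1 i
        omega
      have e4 : (univ.filter (fun x : α => ht x + 1 = 1)) = ∅ := by
        rw [Finset.filter_eq_empty_iff]
        intro i _
        have := ht_pos i
        omega
      rw [e3, e4]; rfl
    · have e3 : (univ.filter (fun i => h i + 1 = j)) = (univ.filter (fun i => h i = j - 1)) := by
        refine Finset.filter_congr fun i _ => ?_
        omega
      have e4 : (univ.filter (fun x : α => ht x + 1 = j)) =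
          (univ.filter (fun x : α => ht x = j - 1)) := by
        refine Finset.filter_congr fun i _ => ?_
        omega
      rw [e3, e4, card_ht H (j - 1) (by omega)]
  rw [e1] at h2
  have e2 : (((univ.filter (fun x : α => ht x = 1)).card : ℕ) : R) * (a * b) =
      ∑ x : α, (if ht x = 1 then a * b else 0) := by
    rw [← Finset.sum_filter, Finset.sum_const, nsmul_eq_mul]
  have e3 : ∑ x : α, ((if ht x = j then a * b else 0) +
      (if ht x + 1 = j then (a ^ ((dset x).card + 1) - a ^ 2) else 0) +
      (if (ht x + 1 < j ∧ (dset x).card = 0) then a * b else 0) +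
      (if ht x = j + 1 then (b ^ ((uset x).card + 1) - b ^ 2) else 0) -
      (if ht x = 1 then a * b else 0)) =
      ∑ x : α, ((if ht x = j then a * b else 0) +
      (if ht x + 1 = j then a ^ ((dset x).card + 1) else 0) +
      (if (ht x + 1 < j ∧ (dset x).card = 0) then a * b else 0) +
      (if ht x = j + 1 then b ^ ((uset x).card + 1) else 0)) -
      ∑ x : α, ((if ht x = j + 1 then b ^ 2 else 0) + (if ht x + 1 = j then a ^ 2 else 0)) -
      ∑ x : α, (if ht x = 1 then a * b else 0) := by
    rw [← Finset.sum_sub_distrib, ← Finset.sum_sub_distrib]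
    refine Finset.sum_congr rfl fun x _ => ?_
    split_ifs <;> ring
  rw [e3, ← e2]
  linear_combination h2

end Run7.h93
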