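import Mathlib
import Pool.Agent.Run7.h93.First3

set_option autoImplicit false

open Finset
open scoped Classical

namespace Run7.h93

variable {α : Type*} [Fintype α] [PartialOrder α]

open Polynomial in
/-- The first order identity for integer polynomials, with `a = -X` and `b = 1 + X`. -/
theorem first_poly {h : Fin (Fintype.card α) → ℕ} (H : GaussianWith α h)
    (j : ℕ) (hj : 0 < j) :
    (∑ x : α, ((if ht x = j then (-X) * (1 + X) else 0) +
      (if ht x + 1 = j then ((-X) ^ ((dset x).card + 1) - (-X) ^ 2) else 0) +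
      (if (ht x + 1 < j ∧ (dset x).card = 0) then (-X) * (1 + X) else 0) +
      (if ht x = j + 1 then ((1 + X) ^ ((uset x).card + 1) - (1 + X) ^ 2) else 0) -
      (if ht x = 1 then (-X) * (1 + X) else 0)) : Polynomial ℤ) = 0 := by
  have h1 := first_order H (R := Polynomial ℤ) (a := -X) (b := 1 + X) (by ring) j hj
  refine (mul_eq_zero.1 h1).resolve_left ?_
  refine Finset.prod_ne_zero_iff.2 fun y _ => ?_
  have hX : (-X : Polynomial ℤ) ≠ 0 := neg_ne_zero.2 X_ne_zero
  have hX1 : (1 + X : Polynomial ℤ) ≠ 0 := by
    intro h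
    have := congrArg (fun p => Polynomial.eval 0 p) h
    simp at this
  unfold zz
  split_ifs
  · exact hX1
  · exact hX
  · have : (-X + (1 + X) : Polynomial ℤ) = 1 := by ring
    rw [this]; exact one_ne_zero

theorem coeff_negX_pow (m n : ℕ) :
    ((-Polynomial.X : Polynomial ℤ) ^ m).coeff n = if n = m then (-1) ^ n else 0 := by
  rw [neg_pow]
  have : ((-1 : Polynomial ℤ) ^ m) = Polynomial.C ((-1) ^ m) := by simp
  rw [this, Polynomial.coeff_C_mul, Polynomial.coeff_X_pow]
  by_cases h : n = m
  · subst h; simp
  · simp [h]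

theorem coeff_ab (n : ℕ) :
    ((-Polynomial.X : Polynomial ℤ) * (1 + Polynomial.X)).coeff n =
      if n = 1 then -1 else if n = 2 then -1 else 0 := by
  have : ((-Polynomial.X : Polynomial ℤ) * (1 + Polynomial.X)) =
    -(Polynomial.X ^ 1 + Polynomial.X ^ 2) := by ring
  rw [this, Polynomial.coeff_neg, Polynomial.coeff_add, Polynomial.coeff_X_pow,
    Polynomial.coeff_X_pow]
  rcases n with _ | _ | _ | n <;> simp

/-- Coefficients of degree at least three. -/
theorem coeff_high {h : Fin (Fintype.card α) → ℕ} (H : GaussianWith α h)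
    (j : ℕ) (hj : 0 < j) (n : ℕ) (hn : 3 ≤ n) :
    (-1 : ℤ) ^ n * ((univ.filter (fun x : α => ht x + 1 = j ∧ (dset x).card + 1 = n)).card : ℕ) +
      ∑ x : α, (if ht x = j + 1 then (((uset x).card + 1).choose n : ℤ) else 0) = 0 := by
  have h1 := congrArg (fun p => Polynomial.coeff p n) (first_poly H j hj)
  simp only [Polynomial.finsetSum_coeff, Polynomial.coeff_zero] at h1
  rw [Finset.card_filter, Nat.cast_sum, Finset.mul_sum, ← Finset.sum_add_distrib]
  refine Eq.trans ?_ h1
  refine Finset.sum_congr rfl fun x _ => ?_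
  rw [Polynomial.coeff_sub, Polynomial.coeff_add, Polynomial.coeff_add, Polynomial.coeff_add]
  have hab : ((-Polynomial.X : Polynomial ℤ) * (1 + Polynomial.X)).coeff n = 0 := by
    rw [coeff_ab, if_neg (by omega), if_neg (by omega)]
  have e1 : ∀ (p : Prop) [Decidable p],
      (if p then ((-Polynomial.X : Polynomial ℤ) * (1 + Polynomial.X)) else 0).coeff n = 0 := by
    intro p _
    split_ifs
    · exact hab
    · simp
  rw [e1, e1, e1, zero_add, add_zero, sub_zero]
  congr 1
  · by_cases hx : ht x + 1 = j
    · rw [if_pos hx, Polynomial.coeff_sub, coeff_negX_pow, coeff_negX_pow 2 n,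
        if_neg (show ¬ n = 2 by omega), sub_zero]
      by_cases hd : (dset x).card + 1 = n
      · rw [if_pos ⟨hx, hd⟩, if_pos hd.symm]; simp
      · rw [if_neg (fun hh => hd hh.2), if_neg (fun hh => hd hh.symm)]; simp
    · rw [if_neg hx, if_neg (fun hh => hx hh.1)]; simp
  · by_cases hx : ht x = j + 1
    · rw [if_pos hx, if_pos hx, Polynomial.coeff_sub, Polynomial.coeff_one_add_X_pow,
        Polynomial.coeff_one_add_X_pow, Nat.choose_eq_zero_of_lt (show 2 < n by omega)]
      simp
    · rw [if_neg hx, if_neg hx]; simp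

theorem uset_card_le {h : Fin (Fintype.card α) → ℕ} (H : GaussianWith α h) (x : α) :
    (uset x).card ≤ 2 := by
  by_cases hx : ht x = 1
  · have : uset x = ∅ := by
      rw [Finset.eq_empty_iff_forall_notMem]
      intro y hy
      have h1 := (mem_uset.1 hy).2
      have h2 := ht_pos y
      omega
    rw [this]; simp
  · have hxp := ht_pos x
    have h1 := coeff_high H (ht x - 1) (by omega) 4 (by omega)
    have h2 : ∀ y ∈ (univ : Finset α),
        (0 : ℤ) ≤ (if ht y = ht x - 1 + 1 then (((uset y).card + 1).choose 4 : ℤ) else 0) := by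
      intro y _
      split_ifs
      · positivity
      · exact le_rfl
    have h3 : (0 : ℤ) ≤ (-1 : ℤ) ^ 4 * ((univ.filter (fun y : α => ht y + 1 = ht x - 1 ∧
      (dset y).card + 1 = 4)).card : ℕ) := by positivity
    have h4 : ∑ y : α, (if ht y = ht x - 1 + 1 then (((uset y).card + 1).choose 4 : ℤ) else 0)
      = 0 := le_antisymm (by linarith) (Finset.sum_nonneg h2)
    have h5 := (Finset.sum_eq_zero_iff_of_nonneg h2).1 h4 x (Finset.mem_univ _)
    rw [if_pos (by omega)] at h5
    by_contra hcon
    have h6 : 0 < ((uset x).card + 1).choose 4 := Nat.choose_pos (by omega)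
    have h7 : ((uset x).card + 1).choose 4 = 0 := by exact_mod_cast h5
    omega

theorem dset_card_le {h : Fin (Fintype.card α) → ℕ} (H : GaussianWith α h) (x : α) :
    (dset x).card ≤ 2 := by
  by_contra hcon
  push Not at hcon
  have h1 := coeff_high H (ht x + 1) (by omega) ((dset x).card + 1) (by omega)
  have h2 : ∑ y : α, (if ht y = ht x + 1 + 1 then
      (((uset y).card + 1).choose ((dset x).card + 1) : ℤ) else 0) = 0 := by
    refine Finset.sum_eq_zero fun y _ => ?_
    split_ifs
    · have := uset_card_le H y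
      rw [Nat.choose_eq_zero_of_lt (by omega)]
      simp
    · rfl
  rw [h2, add_zero] at h1
  have h3 : (univ.filter (fun y : α => ht y + 1 = ht x + 1 ∧
      (dset y).card + 1 = (dset x).card + 1)).card = 0 := by
    have h4 := (mul_eq_zero.1 h1).resolve_left (pow_ne_zero _ (by norm_num))
    exact_mod_cast h4
  rw [Finset.card_eq_zero, Finset.filter_eq_empty_iff] at h3
  exact h3 (Finset.mem_univ x) ⟨rfl, rfl⟩

theorem card_two_two {h : Fin (Fintype.card α) → ℕ} (H : GaussianWith α h) (j : ℕ) (hj : 0 < j) :
    (univ.filter (fun x : α => ht x + 1 = j ∧ (dset x).card = 2)).card =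
      (univ.filter (fun x : α => ht x = j + 1 ∧ (uset x).card = 2)).card := by
  have h1 := coeff_high H j hj 3 le_rfl
  have h2 : ∑ x : α, (if ht x = j + 1 then (((uset x).card + 1).choose 3 : ℤ) else 0) =
      ((univ.filter (fun x : α => ht x = j + 1 ∧ (uset x).card = 2)).card : ℕ) := by
    rw [Finset.card_filter, Nat.cast_sum]
    refine Finset.sum_congr rfl fun x _ => ?_
    by_cases hx : ht x = j + 1
    · have := uset_card_le H x
      rw [if_pos hx]
      by_cases hu : (uset x).card = 2
      · rw [if_pos ⟨hx, hu⟩, hu]; simp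
      · rw [if_neg (fun hh => hu hh.2), Nat.choose_eq_zero_of_lt (by omega)]
    · rw [if_neg hx, if_neg (fun hh => hx hh.1)]; simp
  rw [h2] at h1
  have h3 : (univ.filter (fun x : α => ht x + 1 = j ∧ (dset x).card = 2)) =
      (univ.filter (fun x : α => ht x + 1 = j ∧ (dset x).card + 1 = 3)) := by
    refine Finset.filter_congr fun x _ => ?_
    omega
  rw [h3]
  have h4 : (((univ.filter (fun x : α => ht x + 1 = j ∧ (dset x).card + 1 = 3)).card : ℕ) : ℤ) =
      ((univ.filter (fun x : α => ht x = j + 1 ∧ (uset x).card = 2)).card : ℕ) := by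
    linarith
  exact_mod_cast h4

/-- The coefficient of `X` in the first order identity: the number of edges between two
consecutive levels. -/
theorem edge_count {h : Fin (Fintype.card α) → ℕ} (H : GaussianWith α h) (j : ℕ) (hj : 0 < j) :
    (∑ x ∈ univ.filter (fun x : α => ht x = j + 1), (uset x).card) +
      (univ.filter (fun x : α => ht x = 1)).card =
    (univ.filter (fun x : α => ht x = j + 1)).card + (univ.filter (fun x : α => ht x = j)).card +
      (univ.filter (fun x : α => ht x < j ∧ (dset x).card = 0)).card := by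
  have h1 := congrArg (fun p => Polynomial.coeff p 1) (first_poly H j hj)
  simp only [Polynomial.finsetSum_coeff, Polynomial.coeff_zero] at h1
  have h2 : ∑ x : α, ((if ht x = j + 1 then ((uset x).card : ℤ) else 0) +
      (if ht x = 1 then 1 else 0) - (if ht x = j + 1 then 1 else 0) - (if ht x = j then 1 else 0) -
      (if ht x < j ∧ (dset x).card = 0 then 1 else 0)) = 0 := by
    refine Eq.trans ?_ h1
    refine Finset.sum_congr rfl fun x _ => ?_
    rw [Polynomial.coeff_sub, Polynomial.coeff_add, Polynomial.coeff_add, Polynomial.coeff_add]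
    have e1 : ∀ (p : Prop) [Decidable p],
        (if p then ((-Polynomial.X : Polynomial ℤ) * (1 + Polynomial.X)) else 0).coeff 1 =
          if p then -1 else 0 := by
      intro p _
      split_ifs
      · rw [coeff_ab]; simp
      · simp
    rw [e1, e1, e1]
    have e2 : (if ht x = j + 1 then (1 + Polynomial.X : Polynomial ℤ) ^ ((uset x).card + 1) -
        (1 + Polynomial.X) ^ 2 else 0).coeff 1 =
        if ht x = j + 1 then ((uset x).card : ℤ) - 1 else 0 := by
      split_ifs
      · rw [Polynomial.coeff_sub, Polynomial.coeff_one_add_X_pow, Polynomial.coeff_one_add_X_pow]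
        simp
        ring
      · simp
    have e3 : (if ht x + 1 = j then (-Polynomial.X : Polynomial ℤ) ^ ((dset x).card + 1) -
        (-Polynomial.X) ^ 2 else 0).coeff 1 =
        if (ht x + 1 = j ∧ (dset x).card = 0) then -1 else 0 := by
      by_cases hx : ht x + 1 = j
      · rw [if_pos hx, Polynomial.coeff_sub, coeff_negX_pow, coeff_negX_pow]
        by_cases hd : (dset x).card = 0
        · simp [hd, hx]
        · simp [hd]
      · rw [if_neg hx, if_neg (fun hh => hx hh.1)]; simp
    rw [e2, e3]
    clear h1 e1 e2 e3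
    by_cases hd : (dset x).card = 0
    · simp only [hd, and_true]
      split_ifs <;> omega
    · simp only [hd, and_false, if_false]
      split_ifs <;> omega
  rw [Finset.sum_sub_distrib, Finset.sum_sub_distrib, Finset.sum_sub_distrib,
    Finset.sum_add_distrib] at h2
  have c : ∀ (p : α → Prop) [DecidablePred p], ∑ x : α, (if p x then (1 : ℤ) else 0) =
      ((univ.filter p).card : ℤ) := by
    intro p _
    rw [Finset.card_filter]
    push_cast
    rfl
  rw [c, c, c, c, ← Finset.sum_filter, ← Nat.cast_sum] at h2
  omega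

end Run7.h93
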