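import Mathlib
import Pool.Agent.Run7.h93.Bounds

set_option autoImplicit false

open Finset
open scoped Classical

namespace Run7.h93

variable {α : Type*} [Fintype α] [PartialOrder α]

theorem prod_inv_one_sub {ι : Type*} [Fintype ι] (q : ℚ) (hq : q ≠ 0) (f : ι → ℕ) :
    (∏ i, (1 - (q⁻¹) ^ (f i))) * q ^ (∑ i, f i) =
      (-1) ^ (Fintype.card ι) * ∏ i, (1 - q ^ (f i)) := by
  rw [← Finset.prod_pow_eq_pow_sum, ← Finset.prod_mul_distrib, ← Finset.card_univ,
    ← Finset.prod_const, ← Finset.prod_mul_distrib]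
  refine Finset.prod_congr rfl fun i _ => ?_
  rw [inv_pow]
  have : q ^ (f i) ≠ 0 := pow_ne_zero _ hq
  field_simp
  ring

theorem dual_sum (m : ℕ) (q : ℚ) (hq : q ≠ 0) :
    ∑ σ ∈ (Finset.univ.filter (fun σ : αᵒᵈ → Fin (m + 1) => Monotone σ)), q ^ (∑ x, (σ x).val) =
      q ^ (m * Fintype.card α) *
        ∑ σ ∈ (Finset.univ.filter (fun σ : α → Fin (m + 1) => Monotone σ)),
          (q⁻¹) ^ (∑ x, (σ x).val) := by
  rw [Finset.mul_sum]
  symm
  refine Finset.sum_bij' (fun σ _ => fun x : αᵒᵈ => Fin.rev (σ (OrderDual.ofDual x)))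
    (fun σ _ => fun x : α => Fin.rev (σ (OrderDual.toDual x))) ?_ ?_ ?_ ?_ ?_
  · intro σ hσ
    simp only [Finset.mem_filter, Finset.mem_univ, true_and] at hσ ⊢
    intro x y hxy
    exact Fin.rev_le_rev.2 (hσ hxy)
  · intro σ hσ
    simp only [Finset.mem_filter, Finset.mem_univ, true_and] at hσ ⊢
    intro x y hxy
    exact Fin.rev_le_rev.2 (hσ (OrderDual.toDual_le_toDual.2 hxy))
  · intro σ _
    ext x
    simp
  · intro σ _
    ext x
    simp
  · intro σ _
    have h1 : m * Fintype.card α = ∑ x : α, (σ x).val + ∑ x : α, (Fin.rev (σ x)).val := by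
      rw [← Finset.sum_add_distrib]
      have : ∀ x : α, (σ x).val + (Fin.rev (σ x)).val = m := by
        intro x
        rw [Fin.val_rev]
        have := (σ x).isLt
        omega
      rw [Finset.sum_congr rfl (fun x _ => this x)]
      simp [mul_comm]
    have h2 : ∑ x : αᵒᵈ, (Fin.rev (σ (OrderDual.ofDual x))).val =
        ∑ x : α, (Fin.rev (σ x)).val := rfl
    rw [h2, h1, pow_add, inv_pow]
    have : q ^ (∑ x : α, (σ x).val) ≠ 0 := pow_ne_zero _ hq
    field_simp

theorem eval_gauss {h : Fin (Fintype.card α) → ℕ} (H : GaussianWith α h) (m : ℕ) (q : ℚ) :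
    (∑ σ ∈ (Finset.univ.filter (fun σ : α → Fin (m + 1) => Monotone σ)),
          q ^ (∑ x, (σ x).val)) * ∏ i, (1 - q ^ (h i)) = ∏ i, (1 - q ^ (m + h i)) := by
  have h1 := congrArg (fun p : Polynomial ℤ => Polynomial.eval₂ (Int.castRingHom ℚ) q p) (H.2 m)
  simpa [Polynomial.eval₂_mul, Polynomial.eval₂_finsetSum, Polynomial.eval₂_finsetProd] using h1

/-- The dual of a Gaussian poset is Gaussian, with the same numbers. -/
theorem dual_gaussian {h : Fin (Fintype.card α) → ℕ} (H : GaussianWith α h) :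
    GaussianWith αᵒᵈ h := by
  refine ⟨H.1, fun m => ?_⟩
  apply Polynomial.map_injective (Int.castRingHom ℚ) (RingHom.injective_int _)
  apply Polynomial.eq_of_infinite_eval_eq
  refine Set.Infinite.mono (s := {q : ℚ | q ≠ 0}) ?_ ?_
  · intro q hq
    have hq' : q ≠ 0 := hq
    simp only [Set.mem_ofPred_eq]
    have h1 := eval_gauss H m q⁻¹
    have h2 := prod_inv_one_sub q hq' h
    have h3 := prod_inv_one_sub q hq' (fun i => m + h i)
    have h4 := dual_sum (α := α) m q hq'
    have hsum : ∑ i, (m + h i) = m * Fintype.card α + ∑ i, h i := by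
      rw [Finset.sum_add_distrib]; simp [mul_comm]
    have key : (∑ σ ∈ (Finset.univ.filter (fun σ : αᵒᵈ → Fin (m + 1) => Monotone σ)),
        q ^ (∑ x, (σ x).val)) * ∏ i, (1 - q ^ (h i)) = ∏ i, (1 - q ^ (m + h i)) := by
      have hm1 : ((-1 : ℚ) ^ (Fintype.card (Fin (Fintype.card α)))) ≠ 0 :=
        pow_ne_zero _ (by norm_num)
      apply mul_left_cancel₀ hm1
      rw [← h3, ← h1, h4, hsum, pow_add]
      calc _ = q ^ (m * Fintype.card α) *
            (∑ σ ∈ (Finset.univ.filter (fun σ : α → Fin (m + 1) => Monotone σ)),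
            (q⁻¹) ^ (∑ x, (σ x).val)) *
            ((-1) ^ (Fintype.card (Fin (Fintype.card α))) * ∏ i, (1 - q ^ (h i))) := by ring
        _ = _ := by rw [← h2]; ring
    have e1 : Polynomial.eval q (Polynomial.map (Int.castRingHom ℚ)
        ((∑ σ ∈ (Finset.univ.filter (fun σ : αᵒᵈ → Fin (m + 1) => Monotone σ)),
          (Polynomial.X : Polynomial ℤ) ^ (∑ x, (σ x).val)) *
            ∏ i, (1 - (Polynomial.X : Polynomial ℤ) ^ (h i)))) =
        (∑ σ ∈ (Finset.univ.filter (fun σ : αᵒᵈ → Fin (m + 1) => Monotone σ)),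
        q ^ (∑ x, (σ x).val)) * ∏ i, (1 - q ^ (h i)) := by
      simp [Polynomial.eval_finsetSum, Polynomial.eval_prod, Polynomial.map_sum,
        Polynomial.map_prod]
    have e2 : Polynomial.eval q (Polynomial.map (Int.castRingHom ℚ)
        (∏ i, (1 - (Polynomial.X : Polynomial ℤ) ^ (m + h i)))) =
        ∏ i, (1 - q ^ (m + h i)) := by
      simp [Polynomial.eval_prod, Polynomial.map_prod]
    exact e1.trans (key.trans e2.symm)
  · exact (Set.finite_singleton (0 : ℚ)).infinite_compl

theorem slice_zero_eq : slice α 0 = gf (Valid 0 (∅ : Finset α)) := by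
  simp [slice]

theorem slice_top_eq : slice α (Fintype.card α) = gf (Valid 0 (univ : Finset α)) := by
  have : Finset.powersetCard (Fintype.card α) (univ : Finset α) = {univ} := by
    rw [← Finset.card_univ, Finset.powersetCard_self]
  simp [slice, this]

theorem sum_ht {h : Fin (Fintype.card α) → ℕ} (H : GaussianWith α h) :
    ∑ x : α, ht x = ∑ i, h i := by
  have h1 := sum_min H (∑ x : α, ht x + ∑ i, h i)
  have h2 : ∑ x : α, min (∑ x : α, ht x + ∑ i, h i) (ht x) = ∑ x : α, ht x := by
    refine Finset.sum_congr rfl fun x _ => ?_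
    have := Finset.single_le_sum (f := fun x : α => ht x) (fun _ _ => Nat.zero_le _)
      (Finset.mem_univ x)
    omega
  have h3 : ∑ i, min (∑ x : α, ht x + ∑ i, h i) (h i) = ∑ i, h i := by
    refine Finset.sum_congr rfl fun x _ => ?_
    have := Finset.single_le_sum (f := fun x => h x) (fun _ _ => Nat.zero_le _)
      (Finset.mem_univ x)
    omega
  rw [h2, h3] at h1
  exact h1

theorem gf_top {h : Fin (Fintype.card α) → ℕ} (H : GaussianWith α h) :
    gf (Valid 0 (univ : Finset α)) =
      (PowerSeries.X : PowerSeries ℤ) ^ (∑ x : α, ht x) * gf (Valid 0 (∅ : Finset αᵒᵈ)) := by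
  have h1 := master H (Fintype.card α)
  have h2 := master (dual_gaussian H) 0
  have h3 : Finset.powersetCard (Fintype.card α) (univ : Finset (Fin (Fintype.card α))) =
      {univ} := by
    have : ∀ n : ℕ, Finset.powersetCard n (univ : Finset (Fin n)) = {univ} := by
      intro n
      have := Finset.powersetCard_self (univ : Finset (Fin n))
      simpa using this
    exact this _
  rw [slice_top_eq, h3, Finset.sum_singleton] at h1
  rw [slice_zero_eq, Finset.powersetCard_zero, Finset.sum_singleton, Finset.sum_empty,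
    pow_zero] at h2
  have h4 : gf (Valid 0 (∅ : Finset αᵒᵈ)) *
      ∏ i : Fin (Fintype.card α), (1 - (PowerSeries.X : PowerSeries ℤ) ^ (h i)) = 1 := h2
  rw [sum_ht H, ← h1, mul_assoc, mul_comm (∏ i, _) _, h4, mul_one]

/-- Strictly order reversing maps minus the height are order reversing. -/
theorem sub_ht_antitone {h : Fin (Fintype.card α) → ℕ} (H : GaussianWith α h) (ψ : α → ℕ)
    (hψ : Valid 0 (univ : Finset α) ψ) {x y : α} (hxy : x < y) : ψ y - ht y ≤ ψ x - ht x := by
  have hge : ∀ z, ht z ≤ ψ z := fun z => by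
    have := valid_ge hψ z (Finset.mem_univ z)
    omega
  set n := ∑ z, (ψ z - ht z) with hn
  have hsum : ∑ z, ψ z = n + ∑ z : α, ht z := by
    rw [hn, ← Finset.sum_add_distrib]
    refine Finset.sum_congr rfl fun z _ => ?_
    have := hge z
    omega
  have h1 := congrArg (PowerSeries.coeff (n + ∑ z : α, ht z)) (gf_top H)
  rw [PowerSeries.coeff_X_pow_mul, coeff_gf, coeff_gf] at h1
  have h2 : ((Finset.piAntidiag (univ : Finset α) (n + ∑ z : α, ht z)).filter
      (Valid 0 (univ : Finset α))).card = ((Finset.piAntidiag (univ : Finset αᵒᵈ) n).filter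
      (Valid 0 (∅ : Finset αᵒᵈ))).card := by exact_mod_cast h1
  -- the injection
  set S := ((Finset.piAntidiag (univ : Finset αᵒᵈ) n).filter (Valid 0 (∅ : Finset αᵒᵈ))) with hS
  set T := ((Finset.piAntidiag (univ : Finset α) (n + ∑ z : α, ht z)).filter
      (Valid 0 (univ : Finset α))) with hT
  let f : (αᵒᵈ → ℕ) → (α → ℕ) := fun τ z => τ (OrderDual.toDual z) + ht z
  have hf : Function.Injective f := by
    intro τ τ' hττ
    funext z
    have := congrFun hττ (OrderDual.ofDual z)
    simpa [f] using this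
  have hmaps : S.image f ⊆ T := by
    intro φ hφ
    obtain ⟨τ, hτ, rfl⟩ := Finset.mem_image.1 hφ
    simp only [hS, Finset.mem_filter, Finset.mem_piAntidiag, Finset.mem_univ, implies_true,
      and_true] at hτ
    simp only [hT, Finset.mem_filter, Finset.mem_piAntidiag, Finset.mem_univ, implies_true,
      and_true]
    obtain ⟨hτs, hτv⟩ := hτ
    refine ⟨?_, ?_, ?_, ?_, ?_⟩
    · have h3 : ∑ z : α, (τ (OrderDual.toDual z) + ht z) =
          ∑ z : αᵒᵈ, τ z + ∑ z : α, ht z := by
        rw [Finset.sum_add_distrib]; rfl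
      rw [← hτs]
      exact h3
    · intro u v _ _
      exact Finset.mem_univ v
    · intro u v _ hu
      exact absurd (Finset.mem_univ u) hu
    · intro u v huv _
      have h3 := hτv.mono (OrderDual.toDual v) (OrderDual.toDual u)
        (OrderDual.toDual_lt_toDual.2 huv) (by simp) (by simp)
      have h4 := ht_lt huv
      simp only [f]
      omega
    · intro u _
      have := ht_pos u
      simp only [f]
      omega
  have heq : S.image f = T := by
    apply Finset.eq_of_subset_of_card_le hmaps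
    rw [Finset.card_image_of_injective _ hf, h2]
  have hψT : ψ ∈ T := by
    simp only [hT, Finset.mem_filter, Finset.mem_piAntidiag, Finset.mem_univ, implies_true,
      and_true]
    exact ⟨hsum, hψ⟩
  rw [← heq] at hψT
  obtain ⟨τ, hτ, rfl⟩ := Finset.mem_image.1 hψT
  simp only [hS, Finset.mem_filter, Finset.mem_piAntidiag, Finset.mem_univ, implies_true,
      and_true] at hτ
  have h3 := hτ.2.mono (OrderDual.toDual y) (OrderDual.toDual x)
        (OrderDual.toDual_lt_toDual.2 hxy) (by simp) (by simp)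
  simp only [f]
  omega

end Run7.h93
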