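import Mathlib
import Pool.Agent.Run7.h93.Dual

set_option autoImplicit false

open Finset
open scoped Classical

namespace Run7.h93

variable {α : Type*} [Fintype α] [PartialOrder α]

theorem wht_of_not_le (y : α) (z : α) (hz : ¬ z ≤ y) :
    wht (fun w => if w = y then 2 else 1) z = ht z := by
  induction z using (wellFounded_gt (α := α)).induction with
  | _ z ih =>
    unfold ht
    rw [wht_eq, wht_eq (fun _ => 1) z]
    have hzy : z ≠ y := fun h => hz h.le
    rw [if_neg hzy]
    congr 1
    refine Finset.sup_congr rfl fun w _ => ?_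
    exact ih w.1 w.2 (fun hw => hz (w.2.le.trans hw))

theorem wht_self (y : α) : wht (fun w => if w = y then 2 else 1) y = ht y + 1 := by
  unfold ht
  rw [wht_eq, wht_eq (fun _ => 1) y]
  rw [if_pos rfl]
  have : (univ : Finset {z // y < z}).sup
      (fun z => wht (fun w => if w = y then 2 else 1) z.1) =
      (univ : Finset {z // y < z}).sup (fun z => wht (fun _ => 1) z.1) := by
    refine Finset.sup_congr rfl fun w _ => ?_
    exact wht_of_not_le y w.1 (not_le_of_gt w.2)
  rw [this]
  omega

theorem valid_wht (y : α) :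
    Valid 0 (univ : Finset α) (wht (fun w => if w = y then 2 else 1)) := by
  refine ⟨fun u v _ _ => Finset.mem_univ v, fun u v _ hu => absurd (Finset.mem_univ u) hu, ?_, ?_⟩
  · intro u v huv _
    have := wht_lt (fun w => if w = y then 2 else 1) huv
    split_ifs at this <;> omega
  · intro u _
    rw [wht_eq]
    split_ifs <;> omega

/-- Gaussian posets are graded from the top. -/
theorem ht_covBy {h : Fin (Fintype.card α) → ℕ} (H : GaussianWith α h) {x y : α}
    (hxy : x ⋖ y) : ht x = ht y + 1 := by
  have hlt := ht_lt hxy.lt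
  by_contra hne
  have hge : ht y + 2 ≤ ht x := by omega
  set ω : α → ℕ := fun w => if w = y then 2 else 1 with hω
  have hv : Valid 0 (univ : Finset α) (wht ω) := valid_wht y
  have h1 := sub_ht_antitone H (wht ω) hv hxy.lt
  have h2 : wht ω y = ht y + 1 := wht_self y
  have h3 : wht ω x ≤ ht x := by
    have hxy' : x ≠ y := ne_of_lt hxy.lt
    rcases wht_cases ω x with h4 | ⟨z, hz, h4⟩
    · have : ω x = 1 := if_neg hxy'
      have := ht_pos x
      omega
    · have hx1 : ω x = 1 := if_neg hxy'
      by_cases hzy : z = y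
      · subst hzy
        omega
      · have hnle : ¬ z ≤ y := fun hle => hxy.2 hz (lt_of_le_of_ne hle hzy)
        have h5 : wht ω z = ht z := wht_of_not_le y z hnle
        have := ht_lt hz
        omega
  omega

theorem covBy_iff {h : Fin (Fintype.card α) → ℕ} (H : GaussianWith α h) {x y : α} :
    x ⋖ y ↔ x < y ∧ ht x = ht y + 1 := by
  constructor
  · intro hxy
    exact ⟨hxy.lt, ht_covBy H hxy⟩
  · rintro ⟨hlt, he⟩
    refine ⟨hlt, ?_⟩
    intro z hxz hzy
    have h1 := ht_lt hxz
    have h2 := ht_lt hzy
    omega

theorem uset_eq {h : Fin (Fintype.card α) → ℕ} (H : GaussianWith α h) (x : α) :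
    uset x = univ.filter (fun y => x ⋖ y) := by
  ext y
  rw [mem_uset, Finset.mem_filter, covBy_iff H]
  simp

theorem dset_eq {h : Fin (Fintype.card α) → ℕ} (H : GaussianWith α h) (x : α) :
    dset x = univ.filter (fun y => y ⋖ x) := by
  ext y
  rw [mem_dset, Finset.mem_filter, covBy_iff H]
  simp

/-- In a Gaussian poset every element is covered by at most two elements and covers at most
two elements. -/
theorem cover_bounds {h : Fin (Fintype.card α) → ℕ} (H : GaussianWith α h) (x : α) :
    (univ.filter (fun y => x ⋖ y)).card ≤ 2 ∧ (univ.filter (fun y => y ⋖ x)).card ≤ 2 := by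
  rw [← uset_eq H, ← dset_eq H]
  exact ⟨uset_card_le H x, dset_card_le H x⟩

end Run7.h93
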