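import Mathlib
import Pool.Agent.Run7.h93.Graded

set_option autoImplicit false

open Finset
open scoped Classical

namespace Run7.h93

variable {α : Type*} [Fintype α] [Lattice α]

/-- pairs with a common lower cover -/
noncomputable def Em (α : Type*) [Fintype α] [PartialOrder α] (j : ℕ) : Finset (Finset α) :=
  (univ.filter (fun x : α => ht x = j + 1 ∧ (uset x).card = 2)).image uset

/-- pairs with a common upper cover -/
noncomputable def Ep (α : Type*) [Fintype α] [PartialOrder α] (j : ℕ) : Finset (Finset α) :=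
  (univ.filter (fun x : α => ht x + 1 = j ∧ (dset x).card = 2)).image dset

theorem not_le_of_ht_eq {y y' : α} (h : ht y = ht y') (hne : y ≠ y') : ¬ y ≤ y' := by
  intro hle
  have := ht_lt (lt_of_le_of_ne hle hne)
  omega

theorem uset_inj {h : Fin (Fintype.card α) → ℕ} (H : GaussianWith α h) {x x' : α}
    (hx : (uset x).card = 2) (he : uset x = uset x') : x = x' := by
  obtain ⟨y, y', hne, hyy⟩ := Finset.card_eq_two.1 hx
  have key : ∀ z : α, uset z = {y, y'} → z = y ⊓ y' := by
    intro z hz
    have h1 : y ∈ uset z := by rw [hz]; simp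
    have h2 : y' ∈ uset z := by rw [hz]; simp
    rw [mem_uset] at h1 h2
    have hc : z ⋖ y := (covBy_iff H).2 h1
    have hle : z ≤ y ⊓ y' := le_inf h1.1.le h2.1.le
    have hlt : y ⊓ y' < y := lt_of_le_of_ne inf_le_left (fun he => by
      have : y ≤ y' := by rw [← he]; exact inf_le_right
      exact not_le_of_ht_eq (by omega) hne this)
    rcases eq_or_lt_of_le hle with h3 | h3
    · exact h3
    · exact absurd hlt (hc.2 h3)
  rw [key x hyy, key x' (he ▸ hyy)]

theorem dset_inj {h : Fin (Fintype.card α) → ℕ} (H : GaussianWith α h) {x x' : α}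
    (hx : (dset x).card = 2) (he : dset x = dset x') : x = x' := by
  obtain ⟨y, y', hne, hyy⟩ := Finset.card_eq_two.1 hx
  have key : ∀ z : α, dset z = {y, y'} → z = y ⊔ y' := by
    intro z hz
    have h1 : y ∈ dset z := by rw [hz]; simp
    have h2 : y' ∈ dset z := by rw [hz]; simp
    rw [mem_dset] at h1 h2
    have hc : y ⋖ z := (covBy_iff H).2 h1
    have hle : y ⊔ y' ≤ z := sup_le h1.1.le h2.1.le
    have hlt : y < y ⊔ y' := lt_of_le_of_ne le_sup_left (fun he => by
      have : y' ≤ y := by rw [he]; exact le_sup_right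
      exact not_le_of_ht_eq (by omega) hne.symm this)
    rcases eq_or_lt_of_le hle with h3 | h3
    · exact h3.symm
    · exact absurd h3 (hc.2 hlt)
  rw [key x hyy, key x' (he ▸ hyy)]

/-- Two lower neighbours of one element have a common lower neighbour. -/
theorem common_lower {h : Fin (Fintype.card α) → ℕ} (H : GaussianWith α h) (j : ℕ) (hj : 0 < j)
    (P : ∀ x y y' : α, ht y = j → x ⋖ y → x ⋖ y' → y ≠ y' → ∃ J, y ⋖ J ∧ y' ⋖ J) :
    ∀ J p p' : α, ht p = j → p ⋖ J → p' ⋖ J → p ≠ p' → ∃ m, m ⋖ p ∧ m ⋖ p' := by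
  have hsub : Em α j ⊆ Ep α j := by
    intro T hT
    obtain ⟨x, hx, rfl⟩ := Finset.mem_image.1 hT
    simp only [Finset.mem_filter, Finset.mem_univ, true_and] at hx
    obtain ⟨y, y', hne, hyy⟩ := Finset.card_eq_two.1 hx.2
    have h1 : y ∈ uset x := by rw [hyy]; simp
    have h2 : y' ∈ uset x := by rw [hyy]; simp
    rw [mem_uset] at h1 h2
    obtain ⟨J, hJ, hJ'⟩ := P x y y' (by omega) ((covBy_iff H).2 h1) ((covBy_iff H).2 h2) hne
    have h3 : {y, y'} ⊆ dset J := by
      intro z hz
      rcases Finset.mem_insert.1 hz with rfl | hz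
      · exact mem_dset.2 ((covBy_iff H).1 hJ)
      · rw [Finset.mem_singleton] at hz
        subst hz
        exact mem_dset.2 ((covBy_iff H).1 hJ')
    have h4 : ({y, y'} : Finset α).card = 2 := Finset.card_pair hne
    have h5 : {y, y'} = dset J := by
      apply Finset.eq_of_subset_of_card_le h3
      rw [h4]
      exact dset_card_le H J
    refine Finset.mem_image.2 ⟨J, ?_, ?_⟩
    · simp only [Finset.mem_filter, Finset.mem_univ, true_and]
      refine ⟨?_, by rw [← h5, h4]⟩
      have := ht_covBy H hJ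
      omega
    · rw [hyy, h5]
  have hcard : (Ep α j).card ≤ (Em α j).card := by
    rw [Ep, Em, Finset.card_image_of_injOn, Finset.card_image_of_injOn, card_two_two H j hj]
    · intro x hx x' _ he
      simp only [Finset.coe_filter, Finset.mem_univ, true_and, Set.mem_ofPred_eq] at hx
      exact uset_inj H hx.2 he
    · intro x hx x' _ he
      simp only [Finset.coe_filter, Finset.mem_univ, true_and, Set.mem_ofPred_eq] at hx
      exact dset_inj H hx.2 he
  have heq : Em α j = Ep α j := Finset.eq_of_subset_of_card_le hsub hcard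
  intro J p p' hp hpJ hpJ' hne
  have h3 : {p, p'} ⊆ dset J := by
    intro z hz
    rcases Finset.mem_insert.1 hz with rfl | hz
    · exact mem_dset.2 ((covBy_iff H).1 hpJ)
    · rw [Finset.mem_singleton] at hz
      subst hz
      exact mem_dset.2 ((covBy_iff H).1 hpJ')
  have h4 : ({p, p'} : Finset α).card = 2 := Finset.card_pair hne
  have h5 : {p, p'} = dset J := by
    apply Finset.eq_of_subset_of_card_le h3
    rw [h4]
    exact dset_card_le H J
  have h6 : dset J ∈ Ep α j := by
    refine Finset.mem_image.2 ⟨J, ?_, rfl⟩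
    simp only [Finset.mem_filter, Finset.mem_univ, true_and]
    refine ⟨?_, by rw [← h5, h4]⟩
    have := ht_covBy H hpJ
    omega
  rw [← heq] at h6
  obtain ⟨m, -, hm⟩ := Finset.mem_image.1 h6
  refine ⟨m, (covBy_iff H).2 (mem_uset.1 ?_), (covBy_iff H).2 (mem_uset.1 ?_)⟩
  · rw [hm, ← h5]; simp
  · rw [hm, ← h5]; simp

/-- Two upper neighbours of one element have a common upper neighbour. -/
theorem common_upper {h : Fin (Fintype.card α) → ℕ} (H : GaussianWith α h) (j : ℕ) :
    ∀ x y y' : α, ht y = j → x ⋖ y → x ⋖ y' → y ≠ y' → ∃ J, y ⋖ J ∧ y' ⋖ J := by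
  induction j using Nat.strong_induction_on with
  | _ j ih =>
    intro x y y' hy hxy hxy' hne
    have h1 := ht_covBy H hxy
    have h2 := ht_covBy H hxy'
    have hlt : y < y ⊔ y' := lt_of_le_of_ne le_sup_left (fun he => by
      have : y' ≤ y := by rw [he]; exact le_sup_right
      exact not_le_of_ht_eq (by omega) hne.symm this)
    have hlt' : y' < y ⊔ y' := lt_of_le_of_ne le_sup_right (fun he => by
      have : y ≤ y' := by rw [he]; exact le_sup_left
      exact not_le_of_ht_eq (by omega) hne this)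
    have h3 := ht_lt hlt
    by_cases hJ : ht (y ⊔ y') + 1 = j
    · exact ⟨y ⊔ y', (covBy_iff H).2 ⟨hlt, by omega⟩, (covBy_iff H).2 ⟨hlt', by omega⟩⟩
    · exfalso
      obtain ⟨p, hyp, hpJ⟩ := exists_le_covBy_of_lt hlt
      obtain ⟨p', hyp', hpJ'⟩ := exists_le_covBy_of_lt hlt'
      have hpp : p ≠ p' := by
        rintro rfl
        exact absurd hpJ.lt (not_lt_of_ge (sup_le hyp hyp'))
      have h4 := ht_covBy H hpJ
      have h5 := ht_covBy H hpJ'
      have h6 := ht_pos (y ⊔ y')
      obtain ⟨m, hm, hm'⟩ := common_lower H (ht p) (by omega) (ih (ht p) (by omega))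
        (y ⊔ y') p p' rfl hpJ hpJ' hpp
      have h7 := ht_covBy H hm
      have hinf : m = p ⊓ p' := by
        have hle : m ≤ p ⊓ p' := le_inf hm.le hm'.le
        have hlt2 : p ⊓ p' < p := lt_of_le_of_ne inf_le_left (fun he => by
          have : p ≤ p' := by rw [← he]; exact inf_le_right
          exact not_le_of_ht_eq (by omega) hpp this)
        rcases eq_or_lt_of_le hle with h8 | h8
        · exact h8
        · exact absurd hlt2 (hm.2 h8)
      have hxm : x ≤ m := by
        rw [hinf]
        exact le_inf (hxy.le.trans hyp) (hxy'.le.trans hyp')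
      have hxm' : x < m := lt_of_le_of_ne hxm (fun he => by
        rw [he] at h1
        omega)
      obtain ⟨z, hxz, hzm⟩ := exists_covBy_le_of_lt hxm'
      have hz : z = y ∨ z = y' := by
        have h9 : {y, y'} ⊆ uset x := by
          intro w hw
          rcases Finset.mem_insert.1 hw with rfl | hw
          · exact mem_uset.2 ((covBy_iff H).1 hxy)
          · rw [Finset.mem_singleton] at hw
            subst hw
            exact mem_uset.2 ((covBy_iff H).1 hxy')
        have h10 : {y, y'} = uset x := by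
          apply Finset.eq_of_subset_of_card_le h9
          rw [Finset.card_pair hne]
          exact uset_card_le H x
        have h11 : z ∈ uset x := mem_uset.2 ((covBy_iff H).1 hxz)
        rw [← h10] at h11
        simpa using h11
      rcases hz with rfl | rfl
      · exact absurd hpJ'.lt (not_lt_of_ge (sup_le (hzm.trans hm'.le) hyp'))
      · exact absurd hpJ.lt (not_lt_of_ge (sup_le hyp (hzm.trans hm.le)))

/-- Upper semimodularity. -/
theorem covBy_sup {h : Fin (Fintype.card α) → ℕ} (H : GaussianWith α h) {x y y' : α}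
    (hxy : x ⋖ y) (hxy' : x ⋖ y') (hne : y ≠ y') : y ⋖ y ⊔ y' := by
  obtain ⟨J, hJ, hJ'⟩ := common_upper H (ht y) x y y' rfl hxy hxy' hne
  have h1 := ht_covBy H hxy
  have h2 := ht_covBy H hxy'
  have hlt : y < y ⊔ y' := lt_of_le_of_ne le_sup_left (fun he => by
    have : y' ≤ y := by rw [he]; exact le_sup_right
    exact not_le_of_ht_eq (by omega) hne.symm this)
  have hle : y ⊔ y' ≤ J := sup_le hJ.le hJ'.le
  rcases eq_or_lt_of_le hle with h3 | h3
  · rw [h3]; exact hJ
  · exact absurd h3 (hJ.2 hlt)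

/-- Join irreducible elements are join prime. -/
theorem supPrime_of_supIrred {h : Fin (Fintype.card α) → ℕ} (H : GaussianWith α h) {p : α}
    (hp : ∀ b c : α, b ⊔ c = p → b = p ∨ c = p) (a b : α) (hab : p ≤ a ⊔ b) :
    p ≤ a ∨ p ≤ b := by
  by_contra hcon
  push Not at hcon
  obtain ⟨ha, hb⟩ := hcon
  let r : α → α → Prop := fun z w => z ⋖ w ∧ ¬ p ≤ w
  have reach : ∀ c : α, ¬ p ≤ c → ∀ z : α, z ≤ c → Relation.ReflTransGen r z c := by
    intro c hc z
    induction z using (wellFounded_gt (α := α)).induction with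
    | _ z ih =>
      intro hz
      rcases eq_or_lt_of_le hz with h1 | h1
      · rw [h1]
      · obtain ⟨w, hzw, hwc⟩ := exists_covBy_le_of_lt h1
        exact Relation.ReflTransGen.head ⟨hzw, fun hh => hc (hh.trans hwc)⟩ (ih w hzw.lt hwc)
  have hCR : ∀ z u v, r z u → r z v → ∃ d, Relation.ReflGen r u d ∧ Relation.ReflTransGen r v d := by
    intro z u v hu hv
    by_cases huv : u = v
    · subst huv
      exact ⟨u, Relation.ReflGen.refl, Relation.ReflTransGen.refl⟩
    · have h1 : u ⋖ u ⊔ v := covBy_sup H hu.1 hv.1 huv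
      have h2 : v ⋖ u ⊔ v := by
        rw [sup_comm]
        exact covBy_sup H hv.1 hu.1 (Ne.symm huv)
      have h3 : ¬ p ≤ u ⊔ v := by
        intro hle
        rcases eq_or_lt_of_le hle with h4 | h4
        · rcases hp u v h4.symm with h5 | h5
          · exact hu.2 h5.ge
          · exact hv.2 h5.ge
        · obtain ⟨w, hpw, hw⟩ := exists_le_covBy_of_lt h4
          have h9 : {u, v} ⊆ dset (u ⊔ v) := by
            intro s hs
            rcases Finset.mem_insert.1 hs with rfl | hs
            · exact mem_dset.2 ((covBy_iff H).1 h1)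
            · rw [Finset.mem_singleton] at hs
              subst hs
              exact mem_dset.2 ((covBy_iff H).1 h2)
          have h10 : {u, v} = dset (u ⊔ v) := by
            apply Finset.eq_of_subset_of_card_le h9
            rw [Finset.card_pair huv]
            exact dset_card_le H _
          have h11 : w ∈ dset (u ⊔ v) := mem_dset.2 ((covBy_iff H).1 hw)
          rw [← h10] at h11
          rcases Finset.mem_insert.1 h11 with h12 | h12
          · exact hu.2 (h12 ▸ hpw)
          · rw [Finset.mem_singleton] at h12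
            exact hv.2 (h12 ▸ hpw)
      exact ⟨u ⊔ v, Relation.ReflGen.single ⟨h1, h3⟩, Relation.ReflTransGen.single ⟨h2, h3⟩⟩
  obtain ⟨d, had, hbd⟩ := Relation.church_rosser hCR (reach a ha (a ⊓ b) inf_le_left)
    (reach b hb (a ⊓ b) inf_le_right)
  have hle : ∀ s t, Relation.ReflTransGen r s t → s ≤ t := by
    intro s t hst
    induction hst with
    | refl => exact le_rfl
    | tail _ h ih => exact ih.trans h.1.le
  have hd : ¬ p ≤ d := by
    rcases Relation.ReflTransGen.cases_tail had with h1 | ⟨w, -, h1⟩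
    · rw [h1]; exact ha
    · exact h1.2
  exact hd (hab.trans (sup_le (hle a d had) (hle b d hbd)))

/-- A Gaussian lattice is distributive. -/
theorem lattice_distrib {h : Fin (Fintype.card α) → ℕ} (H : GaussianWith α h) (x y z : α) :
    x ⊓ (y ⊔ z) ≤ (x ⊓ y) ⊔ (x ⊓ z) := by
  by_contra hcon
  obtain ⟨u, hu⟩ := (Set.toFinite {u : α | u ≤ x ⊓ (y ⊔ z) ∧ ¬ u ≤ (x ⊓ y) ⊔ (x ⊓ z)}).exists_minimal
    ⟨x ⊓ (y ⊔ z), le_rfl, hcon⟩
  have hu1 := hu.prop.1
  have hu2 := hu.prop.2
  have hirr : ∀ b c : α, b ⊔ c = u → b = u ∨ c = u := by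
    intro b c hbc
    by_contra hn
    push Not at hn
    have hb : b < u := lt_of_le_of_ne (hbc ▸ le_sup_left) hn.1
    have hc : c < u := lt_of_le_of_ne (hbc ▸ le_sup_right) hn.2
    have hb' : b ≤ (x ⊓ y) ⊔ (x ⊓ z) := by
      by_contra h1
      exact absurd (hu.le_of_le (show b ≤ x ⊓ (y ⊔ z) ∧ ¬ b ≤ _ from ⟨hb.le.trans hu1, h1⟩) hb.le)
        (not_le_of_gt hb)
    have hc' : c ≤ (x ⊓ y) ⊔ (x ⊓ z) := by
      by_contra h1
      exact absurd (hu.le_of_le (show c ≤ x ⊓ (y ⊔ z) ∧ ¬ c ≤ _ from ⟨hc.le.trans hu1, h1⟩) hc.le)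
        (not_le_of_gt hc)
    exact hu2 (hbc ▸ sup_le hb' hc')
  have hux : u ≤ x := hu1.trans inf_le_left
  rcases supPrime_of_supIrred H hirr y z (hu1.trans inf_le_right) with h1 | h1
  · exact hu2 ((le_inf hux h1).trans le_sup_left)
  · exact hu2 ((le_inf hux h1).trans le_sup_right)

end Run7.h93
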