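import Mathlib
import Pool.Agent.Run7.h93.Latt

set_option autoImplicit false

open Finset
open scoped Classical

namespace Run7.h93

variable {α : Type*} [Fintype α] [PartialOrder α]

/-- The number of elements of a longest chain from `x` down to a minimal element. -/
noncomputable def dht (x : α) : ℕ := ht (OrderDual.toDual x)

theorem dht_covBy {h : Fin (Fintype.card α) → ℕ} (H : GaussianWith α h) {x y : α}
    (hxy : x ⋖ y) : dht y = dht x + 1 :=
  ht_covBy (dual_gaussian H) (toDual_covBy_toDual_iff.2 hxy)

theorem sum_const_of_le {h : Fin (Fintype.card α) → ℕ} (H : GaussianWith α h) (x y : α)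
    (hxy : x ≤ y) : ht x + dht x = ht y + dht y := by
  induction x using (wellFounded_gt (α := α)).induction with
  | _ x ih =>
    rcases eq_or_lt_of_le hxy with h1 | h1
    · rw [h1]
    · obtain ⟨z, hxz, hzy⟩ := exists_covBy_le_of_lt h1
      rw [← ih z hxz.lt hzy]
      have h2 := ht_covBy H hxz
      have h3 := dht_covBy H hxz
      omega

theorem sum_const {h : Fin (Fintype.card α) → ℕ} (H : GaussianWith α h)
    (hc : ∀ a b : α, Relation.ReflTransGen (fun x y : α => x ≤ y ∨ y ≤ x) a b) (x y : α) :
    ht x + dht x = ht y + dht y := by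
  induction hc x y with
  | refl => rfl
  | tail _ hb ih =>
    rcases hb with hb | hb
    · rw [ih]; exact sum_const_of_le H _ _ hb
    · rw [ih]; exact (sum_const_of_le H _ _ hb).symm

theorem dset_eq_empty_iff {h : Fin (Fintype.card α) → ℕ} (H : GaussianWith α h) (x : α) :
    (dset x).card = 0 ↔ dht x = 1 := by
  rw [Finset.card_eq_zero]
  constructor
  · intro hd
    by_contra hne
    obtain ⟨y, hy, hxy⟩ := ht_step (OrderDual.toDual x) hne
    have hyx : OrderDual.ofDual y < x := hy
    obtain ⟨z, -, hz⟩ := exists_le_covBy_of_lt hyx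
    have : z ∈ dset x := mem_dset.2 ((covBy_iff H).1 hz)
    rw [hd] at this
    simp at this
  · intro h1
    rw [Finset.eq_empty_iff_forall_notMem]
    intro y hy
    have h2 := dht_covBy H ((covBy_iff H).2 (mem_dset.1 hy))
    have h3 : 0 < dht y := ht_pos _
    omega

/-- In a connected Gaussian poset, the number of covering pairs between two consecutive levels,
plus the number of maximal elements, is the number of elements of the two levels. -/
theorem edge_count_conn {h : Fin (Fintype.card α) → ℕ} (H : GaussianWith α h)
    (hc : ∀ a b : α, Relation.ReflTransGen (fun x y : α => x ≤ y ∨ y ≤ x) a b)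
    (j : ℕ) (hj : 0 < j) (z : α) (hz : ht z = j) :
    (∑ x ∈ univ.filter (fun x : α => ht x = j + 1), (uset x).card) +
      (univ.filter (fun x : α => ht x = 1)).card =
    (univ.filter (fun x : α => ht x = j + 1)).card +
      (univ.filter (fun x : α => ht x = j)).card := by
  have h1 := edge_count H j hj
  have h2 : (univ.filter (fun x : α => ht x < j ∧ (dset x).card = 0)) = ∅ := by
    rw [Finset.filter_eq_empty_iff]
    rintro x - ⟨hx, hd⟩
    rw [dset_eq_empty_iff H] at hd
    have h3 := sum_const H hc x z
    have h4 : 0 < dht z := ht_pos _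
    omega
  rw [h2, Finset.card_empty] at h1
  omega

/-- The number of minimal elements equals the number of maximal elements. -/
theorem card_min_eq_card_max {h : Fin (Fintype.card α) → ℕ} (H : GaussianWith α h)
    (hc : ∀ a b : α, Relation.ReflTransGen (fun x y : α => x ≤ y ∨ y ≤ x) a b) :
    (univ.filter (fun x : α => dht x = 1)).card = (univ.filter (fun x : α => ht x = 1)).card := by
  by_cases hne : Nonempty α
  · obtain ⟨z⟩ := hne
    set r := ht z + dht z - 1 with hr
    have hz1 : 0 < dht z := ht_pos _
    have hz2 : 0 < ht z := ht_pos _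
    have hall : ∀ x : α, ht x + dht x = r + 1 := by
      intro x
      have := sum_const H hc x z
      omega
    have h1 := edge_count H r (by omega)
    have h2 : (univ.filter (fun x : α => ht x < r ∧ (dset x).card = 0)) = ∅ := by
      rw [Finset.filter_eq_empty_iff]
      rintro x - ⟨hx, hd⟩
      rw [dset_eq_empty_iff H] at hd
      have := hall x
      omega
    have h3 : (univ.filter (fun x : α => ht x = r + 1)) = ∅ := by
      rw [Finset.filter_eq_empty_iff]
      intro x _ hx
      have := hall x
      have : 0 < dht x := ht_pos _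
      omega
    have h4 : (univ.filter (fun x : α => dht x = 1)) = (univ.filter (fun x : α => ht x = r)) := by
      refine Finset.filter_congr fun x _ => ?_
      have := hall x
      omega
    rw [h2, h3, Finset.sum_empty, Finset.card_empty] at h1
    rw [h4]
    omega
  · rw [not_nonempty_iff] at hne
    simp

/-- A nonempty Gaussian join semilattice has a least element. -/
theorem exists_bot {α : Type*} [Fintype α] [SemilatticeSup α] [Nonempty α]
    {h : Fin (Fintype.card α) → ℕ} (H : GaussianWith α h) : ∃ b : α, ∀ x, b ≤ x := by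
  have hc : ∀ a b : α, Relation.ReflTransGen (fun x y : α => x ≤ y ∨ y ≤ x) a b := by
    intro a b
    have h1 : a ≤ a ⊔ b ∨ a ⊔ b ≤ a := Or.inl le_sup_left
    have h2 : a ⊔ b ≤ b ∨ b ≤ a ⊔ b := Or.inr le_sup_right
    have h3 : Relation.ReflTransGen (fun x y : α => x ≤ y ∨ y ≤ x) a (a ⊔ b) :=
      Relation.ReflTransGen.single h1
    have h4 : Relation.ReflTransGen (fun x y : α => x ≤ y ∨ y ≤ x) (a ⊔ b) b :=
      Relation.ReflTransGen.single h2
    exact h3.trans h4
  obtain ⟨t, ht'⟩ : ∃ t : α, ∀ x, x ≤ t := by
    refine ⟨univ.sup' Finset.univ_nonempty id, fun x => ?_⟩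
    exact Finset.le_sup' (f := id) (Finset.mem_univ x)
  have h1 : (univ.filter (fun x : α => ht x = 1)).card = 1 := by
    rw [Finset.card_eq_one]
    refine ⟨t, ?_⟩
    ext x
    simp only [Finset.mem_filter, Finset.mem_univ, true_and, Finset.mem_singleton]
    constructor
    · intro hx
      by_contra hne
      have := ht_lt (lt_of_le_of_ne (ht' x) hne)
      have := ht_pos t
      omega
    · rintro rfl
      by_contra hne
      obtain ⟨y, hy, -⟩ := ht_step x hne
      exact absurd (ht' y) (not_le_of_gt hy)
  have h2 := card_min_eq_card_max H hc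
  rw [h1, Finset.card_eq_one] at h2
  obtain ⟨b, hb⟩ := h2
  refine ⟨b, fun x => ?_⟩
  obtain ⟨m, hm⟩ := (Set.toFinite {y : α | y ≤ x}).exists_minimal ⟨x, le_rfl⟩
  have hm1 : dht m = 1 := by
    rw [← dset_eq_empty_iff H, Finset.card_eq_zero, Finset.eq_empty_iff_forall_notMem]
    intro y hy
    have h3 := (mem_dset.1 hy).1
    exact absurd (hm.le_of_le (show y ≤ x from h3.le.trans hm.prop) h3.le) (not_le_of_gt h3)
  have h4 : m ∈ univ.filter (fun x : α => dht x = 1) := by simp [hm1]
  rw [hb, Finset.mem_singleton] at h4
  rw [← h4]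
  exact hm.prop

end Run7.h93
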