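import Mathlib
import Pool.Agent.Run7.h93.Conn

set_option autoImplicit false

open Finset
open scoped Classical

namespace Run7.h93

variable {α : Type*} [Fintype α] [PartialOrder α]

theorem dht_eq_rank {h : Fin (Fintype.card α) → ℕ} (H : GaussianWith α h) (ρ : α → ℕ)
    (h1 : ∀ x y : α, x ⋖ y → ρ y = ρ x + 1) (h0 : ∀ x : α, IsMin x → ρ x = 0) (x : α) :
    dht x = ρ x + 1 := by
  induction x using (wellFounded_lt (α := α)).induction with
  | _ x ih =>
    by_cases hx : dht x = 1
    · have hmin : IsMin x := by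
        intro y hy
        by_contra hne
        have hlt : y < x := lt_of_le_not_ge hy hne
        have h2 : dht x < dht x + 1 := Nat.lt_succ_self _
        have h3 : dht y < dht x := ht_lt (OrderDual.toDual_lt_toDual.2 hlt)
        have h4 : 0 < dht y := ht_pos _
        omega
      rw [h0 x hmin, hx]
    · obtain ⟨y, hy, hxy⟩ := ht_step (OrderDual.toDual x) hx
      have hyx : OrderDual.ofDual y < x := hy
      obtain ⟨z, -, hz⟩ := exists_le_covBy_of_lt hyx
      rw [dht_covBy H hz, h1 z x hz, ih z hz.lt]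

omit [PartialOrder α] in
theorem card_toDual (p : α → Prop) (q : αᵒᵈ → Prop) [DecidablePred q] (hpq : ∀ x, p x ↔ q (OrderDual.toDual x)) :
    Nat.card {x : α // p x} = ((univ : Finset αᵒᵈ).filter q).card := by
  rw [← Fintype.card_subtype, ← Nat.card_eq_fintype_card]
  exact Nat.card_congr (OrderDual.toDual.subtypeEquiv hpq)

theorem edge_rank {h : Fin (Fintype.card α) → ℕ} (H : GaussianWith α h)
    (hc : ∀ a b : α, Relation.ReflTransGen (fun x y : α => x ≤ y ∨ y ≤ x) a b)
    (ρ : α → ℕ) (h1 : ∀ x y : α, x ⋖ y → ρ y = ρ x + 1) (h0 : ∀ x : α, IsMin x → ρ x = 0)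
    (i : ℕ) (hi : ∃ x, ρ x = i) :
    Nat.card {p : α × α // p.1 ⋖ p.2 ∧ ρ p.1 = i} + Nat.card {x : α // IsMin x} =
      Nat.card {x : α // ρ x = i} + Nat.card {x : α // ρ x = i + 1} := by
  obtain ⟨z, hz⟩ := hi
  have hrank : ∀ x : α, ht (OrderDual.toDual x) = ρ x + 1 := dht_eq_rank H ρ h1 h0
  have hc' : ∀ a b : αᵒᵈ, Relation.ReflTransGen (fun x y : αᵒᵈ => x ≤ y ∨ y ≤ x) a b := by
    intro a b
    have h2 := hc (OrderDual.ofDual a) (OrderDual.ofDual b)
    have h3 : ∀ b' : α, Relation.ReflTransGen (fun x y : α => x ≤ y ∨ y ≤ x)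
        (OrderDual.ofDual a) b' →
        Relation.ReflTransGen (fun x y : αᵒᵈ => x ≤ y ∨ y ≤ x) a (OrderDual.toDual b') := by
      intro b' hb'
      induction hb' with
      | refl => exact Relation.ReflTransGen.refl
      | tail _ hs ih => exact ih.tail hs.symm
    exact h3 _ h2
  have key := edge_count_conn (dual_gaussian H) hc' (i + 1) (by omega) (OrderDual.toDual z)
    (by have := hrank z; omega)
  have e0 : Nat.card {x : α // IsMin x} = (univ.filter (fun x : αᵒᵈ => ht x = 1)).card := by
    refine card_toDual _ _ fun x => ?_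
    have hx := hrank x
    constructor
    · intro hm
      rw [hx, h0 x hm]
    · intro hm y hy
      by_contra hne
      have hlt : y < x := lt_of_le_not_ge hy hne
      have h2 : ht (OrderDual.toDual y) < ht (OrderDual.toDual x) :=
        ht_lt (OrderDual.toDual_lt_toDual.2 hlt)
      have h3 : 0 < ht (OrderDual.toDual y) := ht_pos _
      omega
  have e1 : Nat.card {x : α // ρ x = i} = (univ.filter (fun x : αᵒᵈ => ht x = i + 1)).card := by
    refine card_toDual _ _ fun x => ?_
    rw [hrank x]; omega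
  have e2 : Nat.card {x : α // ρ x = i + 1} =
      (univ.filter (fun x : αᵒᵈ => ht x = i + 1 + 1)).card := by
    refine card_toDual _ _ fun x => ?_
    rw [hrank x]; omega
  have e3 : Nat.card {p : α × α // p.1 ⋖ p.2 ∧ ρ p.1 = i} =
      ∑ x ∈ univ.filter (fun x : αᵒᵈ => ht x = i + 1 + 1), (uset x).card := by
    rw [Nat.card_eq_fintype_card, Fintype.card_subtype]
    have hfib : ∀ p ∈ univ.filter (fun p : α × α => p.1 ⋖ p.2 ∧ ρ p.1 = i),
        OrderDual.toDual p.2 ∈ univ.filter (fun x : αᵒᵈ => ht x = i + 1 + 1) := by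
      intro p hp
      simp only [Finset.mem_filter, Finset.mem_univ, true_and] at hp ⊢
      have h2 := h1 _ _ hp.1
      have h3 := hrank p.2
      omega
    rw [Finset.card_eq_sum_card_fiberwise (f := fun p : α × α => OrderDual.toDual p.2) hfib]
    refine Finset.sum_congr rfl fun x hx => ?_
    simp only [Finset.mem_filter, Finset.mem_univ, true_and] at hx
    have hxr := hrank (OrderDual.ofDual x)
    rw [OrderDual.toDual_ofDual] at hxr
    refine Finset.card_bij (fun p _ => OrderDual.toDual p.1) ?_ ?_ ?_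
    · intro p hp
      simp only [Finset.mem_filter, Finset.mem_univ, true_and] at hp
      obtain ⟨⟨hp1, hp2⟩, hp3⟩ := hp
      rw [← hp3]
      exact mem_uset.2 ((covBy_iff (dual_gaussian H)).1 (toDual_covBy_toDual_iff.2 hp1))
    · intro p hp p' hp' he
      simp only [Finset.mem_filter, Finset.mem_univ, true_and] at hp hp'
      exact Prod.ext (OrderDual.toDual.injective he)
        (OrderDual.toDual.injective (hp.2.trans hp'.2.symm))
    · intro y hy
      have hcov : x ⋖ y := (covBy_iff (dual_gaussian H)).2 (mem_uset.1 hy)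
      have hcov' : OrderDual.ofDual y ⋖ OrderDual.ofDual x := ofDual_covBy_ofDual_iff.2 hcov
      refine ⟨(OrderDual.ofDual y, OrderDual.ofDual x), ?_, rfl⟩
      simp only [Finset.mem_filter, Finset.mem_univ, true_and, OrderDual.toDual_ofDual, and_true]
      refine ⟨hcov', ?_⟩
      have := h1 _ _ hcov'
      omega
  rw [e0, e1, e2, e3]
  omega

end Run7.h93
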