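import Mathlib
import Pool.Agent.Run7.h93.Conn

set_option autoImplicit false

open Finset
open scoped Classical

namespace Run7.h93

/-- A nonempty finite join semilattice with a least element, as a distributive lattice. -/
theorem distrib_of_sup {α : Type*} [Fintype α] [PartialOrder α] [Nonempty α]
    {h : Fin (Fintype.card α) → ℕ} (H : GaussianWith α h)
    (hsup : ∀ a b : α, ∃ c, IsLUB {a, b} c) :
    ∃ L : DistribLattice α,
      L.toLattice.toSemilatticeSup.toPartialOrder = (inferInstance : PartialOrder α) := by
  choose s hs using hsup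
  let iS : SemilatticeSup α :=
    { (inferInstance : PartialOrder α) with
      sup := s
      le_sup_left := fun a b => (hs a b).1 (by simp)
      le_sup_right := fun a b => (hs a b).1 (by simp)
      sup_le := fun a b c hac hbc => (hs a b).2 (by
        intro z hz
        rcases hz with rfl | hz
        · exact hac
        · rw [Set.mem_singleton_iff] at hz
          rw [hz]; exact hbc) }
  obtain ⟨b, hb⟩ := exists_bot (α := α) H
  -- greatest lower bounds
  have hinf : ∀ x y : α, ∃ c, c ≤ x ∧ c ≤ y ∧ ∀ z, z ≤ x → z ≤ y → z ≤ c := by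
    intro x y
    have hne : (univ.filter (fun z : α => z ≤ x ∧ z ≤ y)).Nonempty :=
      ⟨b, by simp [hb]⟩
    refine ⟨(univ.filter (fun z : α => z ≤ x ∧ z ≤ y)).sup' hne id, ?_, ?_, ?_⟩
    · refine Finset.sup'_le hne id fun z hz => ?_
      simp only [Finset.mem_filter, Finset.mem_univ, true_and] at hz
      exact hz.1
    · refine Finset.sup'_le hne id fun z hz => ?_
      simp only [Finset.mem_filter, Finset.mem_univ, true_and] at hz
      exact hz.2
    · intro z h1 h2
      exact Finset.le_sup' (f := id) (by simp [h1, h2])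
  choose t ht1 ht2 ht3 using hinf
  let iL : Lattice α :=
    { iS with
      inf := t
      inf_le_left := ht1
      inf_le_right := ht2
      le_inf := fun a b c h1 h2 => ht3 b c a h1 h2 }
  have hd := lattice_distrib (α := α) H
  exact ⟨DistribLattice.ofInfSupLe hd, rfl⟩

end Run7.h93

namespace Run7.h93

theorem distrib_of_inf {α : Type*} [Fintype α] [i : PartialOrder α] [Nonempty α]
    {h : Fin (Fintype.card α) → ℕ} (H : GaussianWith α h)
    (hinf : ∀ a b : α, ∃ c, IsGLB {a, b} c) :
    ∃ L : DistribLattice α, L.toLattice.toSemilatticeSup.toPartialOrder = i := by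
  obtain ⟨L, hL⟩ := distrib_of_sup (α := αᵒᵈ) (dual_gaussian H) (fun a b => by
    obtain ⟨c, hc⟩ := hinf (OrderDual.ofDual a) (OrderDual.ofDual b)
    have hca : c ≤ OrderDual.ofDual a := hc.1 (Set.mem_insert _ _)
    have hcb : c ≤ OrderDual.ofDual b := hc.1 (Set.mem_insert_of_mem _ rfl)
    refine ⟨OrderDual.toDual c, ?_, ?_⟩
    · intro z hz
      rcases hz with rfl | hz
      · exact hca
      · rw [Set.mem_singleton_iff] at hz
        rw [hz]; exact hcb
    · intro z hz
      have hza : OrderDual.ofDual z ≤ OrderDual.ofDual a := hz (Set.mem_insert _ _)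
      have hzb : OrderDual.ofDual z ≤ OrderDual.ofDual b := hz (Set.mem_insert_of_mem _ rfl)
      have h2 : OrderDual.ofDual z ∈ lowerBounds {OrderDual.ofDual a, OrderDual.ofDual b} := by
        intro w hw
        rcases hw with rfl | hw
        · exact hza
        · rw [Set.mem_singleton_iff] at hw
          rw [hw]; exact hzb
      exact hc.2 h2)
  let L' : DistribLattice αᵒᵈᵒᵈ := @OrderDual.instDistribLattice αᵒᵈ L
  refine ⟨L', ?_⟩
  have h1 : @SemilatticeSup.toPartialOrder αᵒᵈᵒᵈ L'.toLattice.toSemilatticeSup =
      @OrderDual.instPartialOrder αᵒᵈ L.toLattice.toSemilatticeSup.toPartialOrder := rfl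
  have h2 : @SemilatticeSup.toPartialOrder αᵒᵈᵒᵈ L'.toLattice.toSemilatticeSup =
      @OrderDual.instPartialOrder αᵒᵈ (@OrderDual.instPartialOrder α i) := by
    rw [h1, hL]
  exact h2

end Run7.h93
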