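import Mathlib
import Pool.Agent.Run7.h93.Semi

set_option autoImplicit false

open Finset
open scoped Classical

namespace Run7.h93

/-! ### Two facts about graphs -/

theorem acyclic_of_connected_card {V : Type*} [Fintype V] (G : SimpleGraph V)
    (hG : G.Connected) (hc : G.edgeFinset.card + 1 ≤ Fintype.card V) : G.IsAcyclic := by
  obtain ⟨T, hT, hTt⟩ := hG.exists_isTree_le
  have h1 := hTt.card_edgeFinset
  have hsub : T.edgeFinset ⊆ G.edgeFinset := by
    intro e he
    rw [SimpleGraph.mem_edgeFinset] at he ⊢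
    exact SimpleGraph.edgeSet_mono hT he
  have h2 : T.edgeFinset = G.edgeFinset := Finset.eq_of_subset_of_card_le hsub (by omega)
  have h3 : T = G := by
    rw [← SimpleGraph.edgeFinset_inj]
    convert h2
  rw [← h3]
  exact hTt.isAcyclic

/-- In an acyclic graph, if two distinct vertices are joined by a walk inside `S` and by a walk
inside `T`, then the first has a neighbour in `S ∩ T`. -/
theorem exists_common_neighbor {V : Type*} (G : SimpleGraph V) (hG : G.IsAcyclic) {u v : V}
    (huv : u ≠ v) (S T : V → Prop) (p q : G.Walk u v) (hp : ∀ w ∈ p.support, S w)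
    (hq : ∀ w ∈ q.support, T w) : ∃ w, G.Adj u w ∧ S w ∧ T w := by
  have h1 : p.bypass = q.bypass := by
    have := (hG.subsingleton_path u v).elim ⟨p.bypass, p.bypass_isPath⟩
      ⟨q.bypass, q.bypass_isPath⟩
    exact congrArg Subtype.val this
  have hS : ∀ w ∈ p.bypass.support, S w := fun w hw => hp w (p.support_bypass_subset_support hw)
  have hT : ∀ w ∈ p.bypass.support, T w := by
    rw [h1]; exact fun w hw => hq w (q.support_bypass_subset_support hw)
  revert hS hT
  cases p.bypass with
  | nil => exact absurd rfl huv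
  | @cons _ w _ hadj r =>
    intro hS hT
    have hw : w ∈ (SimpleGraph.Walk.cons hadj r).support := by
      rw [SimpleGraph.Walk.support_cons]
      exact List.mem_cons_of_mem _ r.start_mem_support
    exact ⟨w, hadj, hS w hw, hT w hw⟩

/-! ### Local upper confluence -/

/-- Two distinct upper covers of the same element have a common upper cover. -/
def Luc (α : Type*) [PartialOrder α] : Prop :=
  ∀ x y y' : α, x ⋖ y → x ⋖ y' → y ≠ y' → ∃ z, y ⋖ z ∧ y' ⋖ z

variable {α : Type*} [Fintype α] [PartialOrder α]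

theorem exists_ub (hl : Luc α)
    (hc : ∀ a b : α, Relation.ReflTransGen (fun x y : α => x ≤ y ∨ y ≤ x) a b) (a b : α) :
    ∃ c, a ≤ c ∧ b ≤ c := by
  have hle : ∀ x y : α, x ≤ y ↔ Relation.ReflTransGen (fun x y : α => x ⋖ y) x y := by
    intro x y
    constructor
    · intro hxy
      induction x using (wellFounded_gt (α := α)).induction with
      | _ x ih =>
        rcases eq_or_lt_of_le hxy with h1 | h1
        · rw [h1]
        · obtain ⟨z, hxz, hzy⟩ := exists_covBy_le_of_lt h1
          exact Relation.ReflTransGen.head hxz (ih z hxz.lt hzy)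
    · intro hxy
      induction hxy with
      | refl => exact le_rfl
      | tail _ hbc ih => exact ih.trans hbc.le
  have heq := Relation.equivalence_join_reflTransGen (r := fun x y : α => x ⋖ y) (by
    intro x y y' h1 h2
    by_cases hne : y = y'
    · subst hne
      exact ⟨y, Relation.ReflGen.refl, Relation.ReflTransGen.refl⟩
    · obtain ⟨z, hz1, hz2⟩ := hl x y y' h1 h2 hne
      exact ⟨z, Relation.ReflGen.single hz1, Relation.ReflTransGen.single hz2⟩)
  have hj : Relation.Join (Relation.ReflTransGen (fun x y : α => x ⋖ y)) a b := by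
    induction hc a b with
    | refl => exact heq.refl a
    | @tail x y _ hxy ih =>
      refine heq.trans ih ?_
      rcases hxy with hxy | hxy
      · exact ⟨y, (hle _ _).1 hxy, Relation.ReflTransGen.refl⟩
      · exact ⟨x, Relation.ReflTransGen.refl, (hle _ _).1 hxy⟩
  obtain ⟨c, h1, h2⟩ := hj
  exact ⟨c, (hle _ _).2 h1, (hle _ _).2 h2⟩

theorem exists_top' [Nonempty α] (hub : ∀ a b : α, ∃ c, a ≤ c ∧ b ≤ c) :
    ∃ t : α, ∀ x, x ≤ t := by
  obtain ⟨m, hm⟩ := (Set.toFinite (Set.univ : Set α)).exists_maximal Set.univ_nonempty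
  refine ⟨m, fun x => ?_⟩
  obtain ⟨c, h1, h2⟩ := hub x m
  exact h1.trans (hm.le_of_ge (Set.mem_univ c) h2)

theorem card_max_eq_one (t : α) (ht' : ∀ x, x ≤ t) :
    (univ.filter (fun x : α => ht x = 1)).card = 1 := by
  rw [Finset.card_eq_one]
  refine ⟨t, ?_⟩
  ext x
  simp only [Finset.mem_filter, Finset.mem_univ, true_and, Finset.mem_singleton]
  constructor
  · intro hx
    by_contra hne
    have := ht_lt (lt_of_le_of_ne (ht' x) hne)
    have := ht_pos t
    omega
  · rintro rfl
    by_contra hne
    obtain ⟨y, hy, -⟩ := ht_step x hne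
    exact absurd (ht' y) (not_le_of_gt hy)

theorem exists_bot' {h : Fin (Fintype.card α) → ℕ} (H : GaussianWith α h)
    (hc : ∀ a b : α, Relation.ReflTransGen (fun x y : α => x ≤ y ∨ y ≤ x) a b)
    (h1 : (univ.filter (fun x : α => ht x = 1)).card = 1) : ∃ b : α, ∀ x, b ≤ x := by
  have h2 := card_min_eq_card_max H hc
  rw [h1, Finset.card_eq_one] at h2
  obtain ⟨b, hb⟩ := h2
  refine ⟨b, fun x => ?_⟩
  obtain ⟨m, hm⟩ := (Set.toFinite {y : α | y ≤ x}).exists_minimal ⟨x, le_rfl⟩
  have hm1 : dht m = 1 := by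
    rw [← dset_eq_empty_iff H, Finset.card_eq_zero, Finset.eq_empty_iff_forall_notMem]
    intro y hy
    have h3 := (mem_dset.1 hy).1
    exact absurd (hm.le_of_le (show y ≤ x from h3.le.trans hm.prop) h3.le) (not_le_of_gt h3)
  have h4 : m ∈ univ.filter (fun x : α => dht x = 1) := by simp [hm1]
  rw [hb, Finset.mem_singleton] at h4
  rw [← h4]
  exact hm.prop

/-- Every element has an element above it on each higher level. -/
theorem exists_ge_ht (j : ℕ) (hj : 0 < j)
    (x : α) (hx : j ≤ ht x) : ∃ y, x ≤ y ∧ ht y = j := by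
  induction x using (wellFounded_gt (α := α)).induction with
  | _ x ih =>
    rcases eq_or_lt_of_le hx with h1 | h1
    · exact ⟨x, le_rfl, h1.symm⟩
    · obtain ⟨y, hxy, hy⟩ := ht_step x (by omega)
      obtain ⟨z, h2, h3⟩ := ih y hxy (by omega)
      exact ⟨z, hxy.le.trans h2, h3⟩

/-- The step relation on the level `j`, staying above `v`. -/
def Stp (v : α) (j : ℕ) (y y' : α) : Prop :=
  ht y = j ∧ ht y' = j ∧ ∃ x, v ≤ x ∧ x ⋖ y ∧ x ⋖ y'

theorem Stp.mono {v v' : α} (hv : v ≤ v') {j : ℕ} {y y' : α} (h : Stp v' j y y') :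
    Stp v j y y' := by
  obtain ⟨h1, h2, x, h3, h4, h5⟩ := h
  exact ⟨h1, h2, x, hv.trans h3, h4, h5⟩

theorem rtg_mono {β : Type*} {r s : β → β → Prop} (h : ∀ a b, r a b → s a b) {a b : β}
    (hab : Relation.ReflTransGen r a b) : Relation.ReflTransGen s a b := by
  induction hab with
  | refl => exact Relation.ReflTransGen.refl
  | tail _ h2 ih => exact ih.tail (h _ _ h2)

theorem level_conn {h : Fin (Fintype.card α) → ℕ} (H : GaussianWith α h) (hl : Luc α)
    (j : ℕ) (hj : 0 < j) (v y y' : α) (hy : v ≤ y) (hy' : v ≤ y') (e : ht y = j)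
    (e' : ht y' = j) : Relation.ReflTransGen (Stp v j) y y' := by
  induction v using (wellFounded_gt (α := α)).induction generalizing y y' with
  | _ v ih =>
    rcases eq_or_lt_of_le hy with h1 | h1
    · rcases eq_or_lt_of_le hy' with h2 | h2
      · rw [← h1, ← h2]
      · have := ht_lt h2
        rw [h1] at this
        omega
    · rcases eq_or_lt_of_le hy' with h2 | h2
      · have := ht_lt h1
        rw [h2] at this
        omega
      · obtain ⟨x, hvx, hxy⟩ := exists_covBy_le_of_lt h1
        obtain ⟨x', hvx', hxy'⟩ := exists_covBy_le_of_lt h2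
        by_cases hne : x = x'
        · subst hne
          exact rtg_mono (fun _ _ hs => Stp.mono hvx.le hs)
            (ih x hvx.lt y y' hxy hxy' e e')
        · have e1 := ht_covBy H hvx
          have e2 := ht_covBy H hvx'
          rcases eq_or_lt_of_le hxy with h3 | h3
          · rcases eq_or_lt_of_le hxy' with h4 | h4
            · subst h3
              subst h4
              exact Relation.ReflTransGen.single ⟨e, e', v, le_rfl, hvx, hvx'⟩
            · have := ht_lt h4
              rw [h3] at e1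
              omega
          · obtain ⟨t, ht1, ht2⟩ := hl v x x' hvx hvx' hne
            have e3 := ht_covBy H ht1
            have e4 := ht_lt h3
            obtain ⟨y'', h5, h6⟩ := exists_ge_ht j hj t (by omega)
            have p1 := ih x hvx.lt y y'' hxy (ht1.le.trans h5) e h6
            have p2 := ih x' hvx'.lt y'' y' (ht2.le.trans h5) hxy' h6 e'
            exact (rtg_mono (fun _ _ hs => Stp.mono hvx.le hs) p1).trans
              (rtg_mono (fun _ _ hs => Stp.mono hvx'.le hs) p2)

/-- The graph of the covering pairs between the levels `j` and `j + 1`. -/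
def Gr (α : Type*) [Fintype α] [PartialOrder α] (j : ℕ) :
    SimpleGraph {x : α // ht x = j ∨ ht x = j + 1} where
  Adj a b := a.1 ⋖ b.1 ∨ b.1 ⋖ a.1
  symm := ⟨fun _ _ h => h.symm⟩
  loopless := ⟨fun a h => by rcases h with h | h <;> exact absurd h.lt (lt_irrefl _)⟩

theorem Gr_ht {h : Fin (Fintype.card α) → ℕ} (H : GaussianWith α h) {j : ℕ}
    {a b : {x : α // ht x = j ∨ ht x = j + 1}} (hab : (Gr α j).Adj a b) (ha : ht a.1 = j) :
    b.1 ⋖ a.1 ∧ ht b.1 = j + 1 := by
  rcases hab with h1 | h1
  · have := ht_covBy H h1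
    have := b.2
    omega
  · have := ht_covBy H h1
    exact ⟨h1, by omega⟩

theorem walk_of_conn {h : Fin (Fintype.card α) → ℕ} (H : GaussianWith α h) {j : ℕ} {v y y' : α}
    (e : ht y = j) (e' : ht y' = j) (hy : v ≤ y)
    (hr : Relation.ReflTransGen (Stp v j) y y') :
    ∃ p : (Gr α j).Walk ⟨y, Or.inl e⟩ ⟨y', Or.inl e'⟩, ∀ w ∈ p.support, v ≤ w.1 := by
  induction hr with
  | refl =>
    refine ⟨SimpleGraph.Walk.nil, ?_⟩
    intro w hw
    rw [SimpleGraph.Walk.support_nil, List.mem_singleton] at hw
    rw [hw]; exact hy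
  | @tail z z' _ hs ih =>
    obtain ⟨e1, e2, x, hx, hxz, hxz'⟩ := hs
    obtain ⟨p, hp⟩ := ih e1
    have ex : ht x = j ∨ ht x = j + 1 := by
      have := ht_covBy H hxz
      right; omega
    have a1 : (Gr α j).Adj ⟨z, Or.inl e1⟩ ⟨x, ex⟩ := Or.inr hxz
    have a2 : (Gr α j).Adj ⟨x, ex⟩ ⟨z', Or.inl e'⟩ := Or.inl hxz'
    refine ⟨p.append (SimpleGraph.Walk.cons a1 (SimpleGraph.Walk.cons a2 SimpleGraph.Walk.nil)),
      ?_⟩
    intro w hw
    rw [SimpleGraph.Walk.mem_support_append_iff] at hw
    rcases hw with hw | hw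
    · exact hp w hw
    · rw [SimpleGraph.Walk.support_cons, SimpleGraph.Walk.support_cons,
        SimpleGraph.Walk.support_nil] at hw
      simp only [List.mem_cons, List.not_mem_nil, or_false] at hw
      rcases hw with rfl | rfl | rfl
      · exact hx.trans hxz.le
      · exact hx
      · exact hx.trans hxz'.le

theorem Gr_connected {h : Fin (Fintype.card α) → ℕ} (H : GaussianWith α h) (hl : Luc α)
    (b : α) (hb : ∀ x, b ≤ x) (j : ℕ) (hj : 0 < j) (z : α) (hz : ht z = j) :
    (Gr α j).Connected := by
  have key : ∀ w : {x : α // ht x = j ∨ ht x = j + 1},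
      (Gr α j).Reachable w ⟨z, Or.inl hz⟩ := by
    have k1 : ∀ y : α, ∀ e : ht y = j, (Gr α j).Reachable ⟨y, Or.inl e⟩ ⟨z, Or.inl hz⟩ := by
      intro y e
      obtain ⟨p, -⟩ := walk_of_conn H e hz (hb y) (level_conn H hl j hj b y z (hb y) (hb z) e hz)
      exact ⟨p⟩
    rintro ⟨w, hw⟩
    rcases hw with hw | hw
    · exact k1 w hw
    · obtain ⟨y, hy, hyw⟩ := ht_step w (by omega)
      have hcov : w ⋖ y := (covBy_iff H).2 ⟨hy, hyw⟩
      have e : ht y = j := by omega
      have a1 : (Gr α j).Adj ⟨w, Or.inr hw⟩ ⟨y, Or.inl e⟩ := Or.inl hcov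
      exact a1.reachable.trans (k1 y e)
  have : Nonempty {x : α // ht x = j ∨ ht x = j + 1} := ⟨⟨z, Or.inl hz⟩⟩
  exact SimpleGraph.Connected.mk fun u v => (key u).trans (key v).symm

theorem Gr_card {h : Fin (Fintype.card α) → ℕ} (H : GaussianWith α h)
    (hc : ∀ a b : α, Relation.ReflTransGen (fun x y : α => x ≤ y ∨ y ≤ x) a b)
    (h1 : (univ.filter (fun x : α => ht x = 1)).card = 1)
    (j : ℕ) (hj : 0 < j) (z : α) (hz : ht z = j) :
    (Gr α j).edgeFinset.card + 1 ≤ Fintype.card {x : α // ht x = j ∨ ht x = j + 1} := by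
  have hec := edge_count_conn H hc j hj z hz
  have hbip : (Gr α j).IsBipartiteWith
      (((univ : Finset {x : α // ht x = j ∨ ht x = j + 1}).filter
        (fun w => ht w.1 = j + 1) : Finset _) : Set _)
      (((univ : Finset {x : α // ht x = j ∨ ht x = j + 1}).filter
        (fun w => ht w.1 = j) : Finset _) : Set _) := by
    constructor
    · rw [Finset.disjoint_coe, Finset.disjoint_left]
      intro w hw hw'
      simp only [Finset.mem_filter, Finset.mem_univ, true_and] at hw hw'
      omega
    · intro u v huv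
      simp only [Finset.coe_filter, Finset.mem_univ, true_and, Set.mem_ofPred_eq]
      have hu := u.2
      have hv := v.2
      rcases huv with h2 | h2
      · have := ht_covBy H h2
        left; omega
      · have := ht_covBy H h2
        right; omega
  have hE := SimpleGraph.isBipartiteWith_sum_degrees_eq_card_edges hbip
  have hdeg : ∑ w ∈ (univ : Finset {x : α // ht x = j ∨ ht x = j + 1}).filter
      (fun w => ht w.1 = j + 1), (Gr α j).degree w =
      ∑ x ∈ univ.filter (fun x : α => ht x = j + 1), (uset x).card := by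
    refine Finset.sum_bij (fun w _ => w.1) ?_ ?_ ?_ ?_
    · intro w hw
      simp only [Finset.mem_filter, Finset.mem_univ, true_and] at hw ⊢
      exact hw
    · intro w _ w' _ hww
      exact Subtype.ext hww
    · intro x hx
      simp only [Finset.mem_filter, Finset.mem_univ, true_and] at hx
      exact ⟨⟨x, Or.inr hx⟩, by simp [hx], rfl⟩
    · intro w hw
      simp only [Finset.mem_filter, Finset.mem_univ, true_and] at hw
      rw [← SimpleGraph.card_neighborFinset_eq_degree]
      refine Finset.card_bij (fun a _ => a.1) ?_ ?_ ?_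
      · intro a ha
        rw [SimpleGraph.mem_neighborFinset] at ha
        rcases ha with h2 | h2
        · exact mem_uset.2 ((covBy_iff H).1 h2)
        · have := ht_covBy H h2
          have := a.2
          omega
      · intro a _ a' _ haa
        exact Subtype.ext haa
      · intro y hy
        have h2 := (covBy_iff H).2 (mem_uset.1 hy)
        have h3 := ht_covBy H h2
        refine ⟨⟨y, Or.inl (by omega)⟩, ?_, rfl⟩
        rw [SimpleGraph.mem_neighborFinset]
        exact Or.inl h2
  have hV : Fintype.card {x : α // ht x = j ∨ ht x = j + 1} =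
      (univ.filter (fun x : α => ht x = j + 1)).card +
      (univ.filter (fun x : α => ht x = j)).card := by
    rw [Fintype.card_subtype, Finset.filter_or, Finset.card_union_of_disjoint, add_comm]
    rw [Finset.disjoint_left]
    intro w hw hw'
    simp only [Finset.mem_filter, Finset.mem_univ, true_and] at hw hw'
    omega
  rw [hV, ← hE, hdeg]
  omega

theorem Gr_acyclic {h : Fin (Fintype.card α) → ℕ} (H : GaussianWith α h) (hl : Luc α)
    (hc : ∀ a b : α, Relation.ReflTransGen (fun x y : α => x ≤ y ∨ y ≤ x) a b)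
    (h1 : (univ.filter (fun x : α => ht x = 1)).card = 1)
    (b : α) (hb : ∀ x, b ≤ x) (j : ℕ) (hj : 0 < j) (z : α) (hz : ht z = j) :
    (Gr α j).IsAcyclic :=
  acyclic_of_connected_card _ (Gr_connected H hl b hb j hj z hz) (Gr_card H hc h1 j hj z hz)

/-- A connected Gaussian poset with local upper confluence has least upper bounds. -/
theorem isLUB_of_luc {h : Fin (Fintype.card α) → ℕ} (H : GaussianWith α h) (hl : Luc α)
    (hc : ∀ a b : α, Relation.ReflTransGen (fun x y : α => x ≤ y ∨ y ≤ x) a b) (a b : α) :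
    ∃ c, IsLUB {a, b} c := by
  have : Nonempty α := ⟨a⟩
  have hub := exists_ub hl hc
  obtain ⟨t, ht'⟩ := exists_top' hub
  have h1 := card_max_eq_one t ht'
  obtain ⟨o, ho⟩ := exists_bot' H hc h1
  -- a common upper bound of largest height
  obtain ⟨c, hcm, hcmax⟩ := Finset.exists_max_image
    (univ.filter (fun c : α => a ≤ c ∧ b ≤ c)) ht
    (by obtain ⟨c, hc1, hc2⟩ := hub a b; exact ⟨c, by simp [hc1, hc2]⟩)
  simp only [Finset.mem_filter, Finset.mem_univ, true_and] at hcm hcmax
  refine ⟨c, ?_, ?_⟩
  · intro z hz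
    rcases hz with rfl | hz
    · exact hcm.1
    · rw [Set.mem_singleton_iff] at hz
      rw [hz]; exact hcm.2
  · intro u hu
    have hua : a ≤ u := hu (Set.mem_insert _ _)
    have hub' : b ≤ u := hu (Set.mem_insert_of_mem _ rfl)
    clear hu
    induction hn : (ht c - ht u) generalizing u with
    | zero =>
      have h2 := hcmax u ⟨hua, hub'⟩
      have e : ht u = ht c := by omega
      by_contra hne
      have hne' : (⟨u, Or.inl e⟩ : {x : α // ht x = ht c ∨ ht x = ht c + 1}) ≠
          ⟨c, Or.inl rfl⟩ := by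
        intro h3
        exact hne (Subtype.mk.inj h3).ge
      obtain ⟨p, hp⟩ := walk_of_conn H e rfl hua
        (level_conn H hl (ht c) (ht_pos c) a u c hua hcm.1 e rfl)
      obtain ⟨q, hq⟩ := walk_of_conn H e rfl hub'
        (level_conn H hl (ht c) (ht_pos c) b u c hub' hcm.2 e rfl)
      obtain ⟨w, hw, hwa, hwb⟩ := exists_common_neighbor _
        (Gr_acyclic H hl hc h1 o ho (ht c) (ht_pos c) c rfl) hne'
        (fun w => a ≤ w.1) (fun w => b ≤ w.1) p q hp hq
      have h4 := Gr_ht H hw e
      have h5 := hcmax w.1 ⟨hwa, hwb⟩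
      omega
    | succ n ih =>
      obtain ⟨c', hcc', e'⟩ := exists_ge_ht (ht u) (ht_pos u) c (by omega)
      by_contra hne
      have hne' : (⟨u, Or.inl rfl⟩ : {x : α // ht x = ht u ∨ ht x = ht u + 1}) ≠
          ⟨c', Or.inl e'⟩ := by
        intro h3
        exact hne (hcc'.trans (Subtype.mk.inj h3).ge)
      obtain ⟨p, hp⟩ := walk_of_conn H rfl e' hua
        (level_conn H hl (ht u) (ht_pos u) a u c' hua (hcm.1.trans hcc') rfl e')
      obtain ⟨q, hq⟩ := walk_of_conn H rfl e' hub'
        (level_conn H hl (ht u) (ht_pos u) b u c' hub' (hcm.2.trans hcc') rfl e')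
      obtain ⟨w, hw, hwa, hwb⟩ := exists_common_neighbor _
        (Gr_acyclic H hl hc h1 o ho (ht u) (ht_pos u) u rfl) hne'
        (fun w => a ≤ w.1) (fun w => b ≤ w.1) p q hp hq
      have h4 := Gr_ht H hw rfl
      have h6 := ih hwa hwb (by omega)
      exact hne (h6.trans h4.1.le)

/-- Local upper confluence forces a distributive lattice. -/
theorem distrib_of_luc [Nonempty α] {h : Fin (Fintype.card α) → ℕ} (H : GaussianWith α h)
    (hl : Luc α)
    (hc : ∀ a b : α, Relation.ReflTransGen (fun x y : α => x ≤ y ∨ y ≤ x) a b) :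
    ∃ L : DistribLattice α,
      L.toLattice.toSemilatticeSup.toPartialOrder = (inferInstance : PartialOrder α) :=
  distrib_of_sup H (isLUB_of_luc H hl hc)

end Run7.h93
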