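import Mathlib
import Pool.Agent.Run7.h93.Tree

set_option autoImplicit false

open Finset
open scoped Classical

namespace Run7.h93

theorem conn_dual {α : Type*} [PartialOrder α]
    (hc : ∀ a b : α, Relation.ReflTransGen (fun x y : α => x ≤ y ∨ y ≤ x) a b) :
    ∀ a b : αᵒᵈ, Relation.ReflTransGen (fun x y : αᵒᵈ => x ≤ y ∨ y ≤ x) a b := by
  intro a b
  have h2 := hc (OrderDual.ofDual a) (OrderDual.ofDual b)
  have h3 : ∀ b' : α, Relation.ReflTransGen (fun x y : α => x ≤ y ∨ y ≤ x)
      (OrderDual.ofDual a) b' →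
      Relation.ReflTransGen (fun x y : αᵒᵈ => x ≤ y ∨ y ≤ x) a (OrderDual.toDual b') := by
    intro b' hb'
    induction hb' with
    | refl => exact Relation.ReflTransGen.refl
    | tail _ hs ih => exact ih.tail hs.symm
  exact h3 _ h2

theorem cov_of_dual {α : Type*} [PartialOrder α] (a b : α)
    (h : OrderDual.toDual a ⋖ OrderDual.toDual b) : b ⋖ a :=
  toDual_covBy_toDual_iff.1 h

theorem dual_of_cov {α : Type*} [PartialOrder α] {a b : α}
    (h : b ⋖ a) : OrderDual.toDual a ⋖ OrderDual.toDual b :=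
  toDual_covBy_toDual_iff.2 h

theorem luc_dual {α : Type*} [PartialOrder α]
    (hl : ∀ x y y' : α, y ⋖ x → y' ⋖ x → y ≠ y' → ∃ z, z ⋖ y ∧ z ⋖ y') : Luc αᵒᵈ := by
  intro x y y' h1 h2 hne
  obtain ⟨z, hz1, hz2⟩ := hl (OrderDual.ofDual x) (OrderDual.ofDual y) (OrderDual.ofDual y')
    (cov_of_dual _ _ h1) (cov_of_dual _ _ h2)
    (fun he => hne (OrderDual.ofDual.injective he))
  exact ⟨OrderDual.toDual z, dual_of_cov (α := α) (a := OrderDual.ofDual y) (b := z) hz1,
    dual_of_cov (α := α) (a := OrderDual.ofDual y') (b := z) hz2⟩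

/-- Local lower confluence forces a distributive lattice. -/
theorem distrib_of_llc {α : Type*} [Fintype α] [i : PartialOrder α] [Nonempty α]
    {h : Fin (Fintype.card α) → ℕ} (H : GaussianWith α h)
    (hl : ∀ x y y' : α, y ⋖ x → y' ⋖ x → y ≠ y' → ∃ z, z ⋖ y ∧ z ⋖ y')
    (hc : ∀ a b : α, Relation.ReflTransGen (fun x y : α => x ≤ y ∨ y ≤ x) a b) :
    ∃ L : DistribLattice α, L.toLattice.toSemilatticeSup.toPartialOrder = i := by
  refine distrib_of_inf H ?_
  intro a b
  obtain ⟨c, hc1, hc2⟩ := isLUB_of_luc (dual_gaussian H) (luc_dual hl) (conn_dual hc)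
    (OrderDual.toDual a) (OrderDual.toDual b)
  refine ⟨OrderDual.ofDual c, ?_, ?_⟩
  · intro z hz
    rcases hz with rfl | hz
    · exact hc1 (Set.mem_insert _ _)
    · rw [Set.mem_singleton_iff] at hz
      rw [hz]
      exact hc1 (Set.mem_insert_of_mem _ rfl)
  · intro z hz
    have h1 : OrderDual.toDual z ∈ upperBounds {OrderDual.toDual a, OrderDual.toDual b} := by
      intro w hw
      rcases hw with rfl | hw
      · exact hz (Set.mem_insert _ _)
      · rw [Set.mem_singleton_iff] at hw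
        rw [hw]
        exact hz (Set.mem_insert_of_mem _ rfl)
    exact hc2 h1

end Run7.h93
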